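import Mathlib

/-!
Norms of degree `k` of Hodge structures of weight two (MP_b8862a_ag): the field, a normal basis, the coefficient of the form.
-/

open NumberField

namespace MH

namespace NK98

/-- there is a Galois extension of the rational numbers of degree `k` with a real embedding -/
theorem exists_real_galois (k : ℕ) (hk : 0 < k) :
    ∃ (K : Type) (_ : Field K) (_ : NumberField K) (_ : IsGalois ℚ K), Module.finrank ℚ K = k ∧ Nonempty (K →+* ℝ) := by
  obtain ⟨p, hp, hpgt, hmod⟩ := Nat.exists_prime_gt_modEq_one (k := 2 * k) 2 (by omega)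
  have : Fact p.Prime := ⟨hp⟩
  have : NeZero p := ⟨hp.ne_zero⟩
  have hdvd : 2 * k ∣ p - 1 := (Nat.modEq_iff_dvd' hp.pos).1 hmod.symm
  let L := CyclotomicField p ℚ
  have hLc : IsCyclotomicExtension {p} ℚ L := CyclotomicField.isCyclotomicExtension p ℚ
  have hgal : IsGalois ℚ L := IsCyclotomicExtension.isGalois {p} ℚ L
  have hnf : NumberField L := IsCyclotomicExtension.numberField {p} ℚ L
  let e := IsCyclotomicExtension.autEquivPow L (Polynomial.cyclotomic.irreducible_rat hp.pos)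
  have hcyc : IsCyclic (L ≃ₐ[ℚ] L) := isCyclic_of_surjective e.symm.toMonoidHom e.symm.surjective
  obtain ⟨σ, hσ⟩ := hcyc.exists_generator
  have hcard : Nat.card (L ≃ₐ[ℚ] L) = p - 1 := by
    rw [Nat.card_congr e.toEquiv, Nat.card_eq_fintype_card, ZMod.card_units p]
  have hord : orderOf σ = p - 1 := by rw [orderOf_eq_card_of_forall_mem_zpowers hσ, hcard]
  let H : Subgroup (L ≃ₐ[ℚ] L) := Subgroup.zpowers (σ ^ k)
  have hcomm : ∀ x y : L ≃ₐ[ℚ] L, x * y = y * x := by
    intro x y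
    obtain ⟨a, rfl⟩ := hσ x
    obtain ⟨b, rfl⟩ := hσ y
    exact (Commute.refl σ).zpow_zpow a b
  have hN : H.Normal := ⟨fun n hn g => by rw [hcomm g n, mul_assoc, mul_inv_cancel, mul_one]; exact hn⟩
  have hH : Nat.card H = (p - 1) / k := by
    rw [Nat.card_zpowers, orderOf_pow_of_dvd hk.ne' (by rw [hord]; exact (Dvd.intro_left 2 rfl).trans hdvd), hord]
  have hfin : Module.finrank ℚ L = p - 1 := by
    rw [← IsGalois.card_aut_eq_finrank, hcard]
  have hK : Module.finrank ℚ (IntermediateField.fixedField H) = k := by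
    have h1 := Module.finrank_mul_finrank ℚ (IntermediateField.fixedField H) L
    rw [IntermediateField.finrank_fixedField_eq_card, hH, hfin] at h1
    obtain ⟨m, hm⟩ : k ∣ p - 1 := (Dvd.intro_left 2 rfl).trans hdvd
    have hp1 : 0 < p - 1 := by have := hp.two_le; omega
    have hm0 : 0 < m := Nat.pos_of_ne_zero (by rintro rfl; omega)
    rw [hm, Nat.mul_div_cancel_left m hk] at h1
    exact Nat.eq_of_mul_eq_mul_right hm0 h1
  -- complex conjugation
  obtain ⟨ψ⟩ : Nonempty (L →+* ℂ) := ⟨(IsAlgClosed.lift : L →ₐ[ℚ] ℂ).toRingHom⟩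
  obtain ⟨τ, hτ⟩ := ComplexEmbedding.exists_comp_symm_eq_of_comp_eq (k := ℚ) ψ (ComplexEmbedding.conjugate ψ) (by ext; simp)
  have hτ' : ∀ x, ψ (τ.symm x) = (starRingEnd ℂ) (ψ x) := fun x => by
    have := RingHom.congr_fun hτ x
    exact this
  have hc2 : τ.symm * τ.symm = 1 := by
    ext x
    apply ψ.injective
    rw [AlgEquiv.mul_apply, hτ', hτ', AlgEquiv.one_apply, Complex.conj_conj]
  have hcH : τ.symm ∈ H := by
    obtain ⟨j, hj⟩ := hσ τ.symm
    have hj' : σ ^ j = τ.symm := hj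
    have h1 : σ ^ (j + j) = 1 := by rw [zpow_add, hj', hc2]
    have h2 : (orderOf σ : ℤ) ∣ j + j := orderOf_dvd_iff_zpow_eq_one.2 h1
    rw [hord] at h2
    have h3 : ((2 * k : ℕ) : ℤ) ∣ j + j := (Int.natCast_dvd_natCast.2 hdvd).trans h2
    obtain ⟨m, hm⟩ := h3
    have h4 : j = k * m := by
      push_cast at hm
      linarith
    refine ⟨m, ?_⟩
    show (σ ^ k) ^ m = τ.symm
    rw [← hj', h4, zpow_mul, zpow_natCast]
  let K := IntermediateField.fixedField H
  have hreal : ComplexEmbedding.IsReal (ψ.comp (algebraMap K L)) := by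
    rw [ComplexEmbedding.isReal_iff]
    ext x
    rw [ComplexEmbedding.conjugate_coe_eq]
    show (starRingEnd ℂ) (ψ (x : L)) = ψ (x : L)
    rw [← hτ']
    congr 1
    exact x.2 ⟨τ.symm, hcH⟩
  have hG : IsGalois ℚ (IntermediateField.fixedField H) := IsGalois.of_fixedField_normal_subgroup H
  exact ⟨K, inferInstance, inferInstance, hG, hK, ⟨hreal.embedding⟩⟩

/-- the field data -/
structure Fdat (K G : Type) [Field K] [Group G] [Fintype G] [DecidableEq G] [MulSemiringAction G K] (φ : K →+* ℝ)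
    (θ θ' α : K) : Prop where
  fix : ∀ x : K, (∀ g : G, g • x = x) → ∃ q : ℚ, x = q
  dual : ∀ m : G, ∑ g : G, (g • θ') * (g • m • θ) = if m = 1 then 1 else 0
  neg : φ α < 0
  pos : ∀ g : G, g ≠ 1 → 0 < φ (g • α)

/-- there are field data of each degree -/
theorem exists_fdat (k : ℕ) (hk : 0 < k) :
    ∃ (K G : Type) (_ : Field K) (_ : CharZero K) (_ : Group G) (_ : Fintype G) (_ : DecidableEq G)
      (_ : MulSemiringAction G K) (φ : K →+* ℝ) (θ θ' α : K), Fintype.card G = k ∧ Fdat K G φ θ θ' α := by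
  obtain ⟨K, _, _, _, hK, ⟨φ⟩⟩ := exists_real_galois k hk
  classical
  let b := IsGalois.normalBasis ℚ K
  obtain ⟨θ, hθ⟩ : ∃ θ, θ = b 1 := ⟨_, rfl⟩
  have hbθ : ∀ g : K ≃ₐ[ℚ] K, b g = g θ := fun g => by rw [hθ]; exact IsGalois.normalBasis_apply g
  have hinj : Function.Injective b := b.injective
  -- the other conjugates are different
  have hne : ∀ g : K ≃ₐ[ℚ] K, g ≠ 1 → φ (g θ) ≠ φ θ := by
    intro g hg h
    apply hg
    apply hinj
    rw [hbθ, hbθ, AlgEquiv.one_apply]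
    exact φ.injective h
  obtain ⟨ε, hε, hε'⟩ : ∃ ε : ℝ, 0 < ε ∧ ∀ g : K ≃ₐ[ℚ] K, g ≠ 1 → ε < |φ (g θ) - φ θ| := by
    obtain ⟨s, hs⟩ : ∃ s : Finset ℝ, s = (Finset.univ.filter fun g : K ≃ₐ[ℚ] K => g ≠ 1).image fun g => |φ (g θ) - φ θ| :=
      ⟨_, rfl⟩
    by_cases hs0 : s.Nonempty
    · have h0 : ∀ x ∈ s, 0 < x := by
        intro x hx
        rw [hs, Finset.mem_image] at hx
        obtain ⟨g, hg, rfl⟩ := hx
        exact abs_pos.2 (sub_ne_zero.2 (hne g (Finset.mem_filter.1 hg).2))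
      have h1 : 0 < s.min' hs0 := h0 _ (s.min'_mem hs0)
      refine ⟨s.min' hs0 / 2, by linarith, fun g hg => ?_⟩
      have h3 : |φ (g θ) - φ θ| ∈ s := by
        rw [hs]
        exact Finset.mem_image_of_mem (fun g : K ≃ₐ[ℚ] K => |φ (g θ) - φ θ|) (Finset.mem_filter.2 ⟨Finset.mem_univ g, hg⟩)
      have := s.min'_le _ h3
      linarith
    · refine ⟨1, one_pos, fun g hg => ?_⟩
      exfalso
      apply hs0
      rw [hs]
      exact ⟨_, Finset.mem_image_of_mem (fun g : K ≃ₐ[ℚ] K => |φ (g θ) - φ θ|)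
        (Finset.mem_filter.2 ⟨Finset.mem_univ g, hg⟩)⟩
  obtain ⟨r1, h1a, h1b⟩ := exists_rat_btwn (show φ θ - ε < φ θ by linarith)
  obtain ⟨r2, h2a, h2b⟩ := exists_rat_btwn (show φ θ < φ θ + ε by linarith)
  have hφq : ∀ q : ℚ, φ (q : K) = (q : ℝ) := fun q => map_ratCast φ q
  refine ⟨K, K ≃ₐ[ℚ] K, inferInstance, inferInstance, inferInstance, inferInstance, inferInstance, inferInstance, φ, θ,
    b.traceDual 1, (θ - r1) * (θ - r2), ?_, ?_, ?_, ?_, ?_⟩
  · rw [← hK, ← IsGalois.card_aut_eq_finrank, Nat.card_eq_fintype_card]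
  · intro x hx
    have h1 : x ∈ (⊥ : IntermediateField ℚ K) := (IsGalois.mem_bot_iff_fixed x).2 hx
    obtain ⟨q, hq⟩ := IntermediateField.mem_bot.1 h1
    exact ⟨q, by rw [← hq]; simp⟩
  · intro m
    have h1 := b.trace_traceDual_mul 1 m
    have h2 := congrArg (algebraMap ℚ K) h1
    rw [trace_eq_sum_automorphisms] at h2
    have h3 : ∀ g : K ≃ₐ[ℚ] K, g (b.traceDual 1 * b m) = (g • b.traceDual 1) * (g • m • θ) := by
      intro g
      rw [map_mul, hbθ]
      rfl
    rw [Finset.sum_congr rfl fun g _ => h3 g] at h2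
    rw [h2]
    split_ifs <;> simp
  · rw [map_mul, map_sub, map_sub, hφq, hφq]
    exact mul_neg_of_pos_of_neg (by linarith) (by linarith)
  · intro g hg
    have h1 : g • ((θ - (r1 : K)) * (θ - (r2 : K))) = (g θ - r1) * (g θ - r2) := by
      show g ((θ - (r1 : K)) * (θ - (r2 : K))) = _
      rw [map_mul, map_sub, map_sub, map_ratCast, map_ratCast]
    rw [h1, map_mul, map_sub, map_sub, hφq, hφq]
    have h2 := hε' g hg
    rcases lt_abs.1 h2 with h3 | h3
    · exact mul_pos (by linarith) (by linarith)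
    · exact mul_pos_of_neg_of_neg (by linarith) (by linarith)

end NK98

end MH
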