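import Pool.Agent.Helper94.NM.Main

/-!
Norms of degree `k` of Hodge structures of weight two (MP_b8862a_ag): the structure defined by an operator that acts on one
factor, in real coordinates; the blocks of the endomorphisms of a family.
-/

set_option linter.unusedSectionVars false

open Matrix
open scoped Kronecker

namespace MH

namespace NK98

open NM94
open PGN (bst bst_zero bst_mul_neg bst_cont rC_cont)

variable {ι J n : Type*} [Fintype ι] [DecidableEq ι] [Fintype J] [DecidableEq J] [Fintype n] [DecidableEq n]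

/-- real coordinates in which the form is diagonal -/
structure Fr (c : ι → ℚ) (w : J → ℝ) (Q : Matrix n n ℚ) (L : Matrix (ι × J) n ℂ) (Li : Matrix n (ι × J) ℂ) : Prop where
  LLi : L * Li = 1
  LiL : Li * L = 1
  conj : L.map (starRingEnd ℂ) = L
  conji : Li.map (starRingEnd ℂ) = Li
  form : toC Q = Lᵀ * (Matrix.diagonal (av c) ⊗ₖ Matrix.diagonal (fun j => (w j : ℂ))) * L
  pos : ∀ j, 0 < w j

/-- the operator of the norm -/
noncomputable def NJ (L : Matrix (ι × J) n ℂ) (Li : Matrix n (ι × J) ℂ) (H : Matrix ι ι ℂ) : Matrix n n ℂ :=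
  Li * (H ⊗ₖ (1 : Matrix J J ℂ)) * L

variable {c : ι → ℚ} {w : J → ℝ} {Q : Matrix n n ℚ} {L : Matrix (ι × J) n ℂ} {Li : Matrix n (ι × J) ℂ}

theorem Fr.mul (F : Fr c w Q L Li) (X Y : Matrix ι ι ℂ) : NJ L Li X * NJ L Li Y = NJ L Li (X * Y) := by
  calc NJ L Li X * NJ L Li Y = Li * (X ⊗ₖ (1 : Matrix J J ℂ)) * (L * Li) * (Y ⊗ₖ (1 : Matrix J J ℂ)) * L := by
        simp only [NJ, Matrix.mul_assoc]
    _ = Li * ((X ⊗ₖ (1 : Matrix J J ℂ)) * (Y ⊗ₖ (1 : Matrix J J ℂ))) * L := by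
        rw [F.LLi, Matrix.mul_one]; simp only [Matrix.mul_assoc]
    _ = _ := by rw [← Matrix.mul_kronecker_mul, Matrix.mul_one]; rfl

theorem NJ_sub (X Y : Matrix ι ι ℂ) : NJ L Li (X - Y) = NJ L Li X - NJ L Li Y := by
  have h3 : (X - Y) ⊗ₖ (1 : Matrix J J ℂ) = X ⊗ₖ (1 : Matrix J J ℂ) - Y ⊗ₖ (1 : Matrix J J ℂ) := by
    ext i j
    simp only [Matrix.sub_apply, Matrix.kroneckerMap_apply, sub_mul]
  rw [NJ, NJ, NJ, h3, Matrix.mul_sub, Matrix.sub_mul]

theorem NJ_smul (a : ℂ) (X : Matrix ι ι ℂ) : NJ L Li (a • X) = a • NJ L Li X := by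
  rw [NJ, NJ, Matrix.smul_kronecker, Matrix.mul_smul, Matrix.smul_mul]

theorem Fr.one (F : Fr c w Q L Li) : NJ L Li (1 : Matrix ι ι ℂ) = 1 := by
  rw [NJ, Matrix.one_kronecker_one, Matrix.mul_one, F.LiL]

theorem Fr.trace (F : Fr c w Q L Li) (X : Matrix ι ι ℂ) : (NJ L Li X).trace = X.trace * Fintype.card J := by
  rw [NJ, Matrix.mul_assoc, Matrix.trace_mul_comm, Matrix.mul_assoc, F.LLi, Matrix.mul_one, Matrix.trace_kronecker,
    Matrix.trace_one]

theorem kron_mulVec (A : Matrix ι ι ℂ) (Y : ι × J → ℂ) (j : J) :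
    (fun i => ((A ⊗ₖ (1 : Matrix J J ℂ)) *ᵥ Y) (i, j)) = A *ᵥ fun i => Y (i, j) := by
  funext i
  rw [Matrix.mulVec, Matrix.mulVec, dotProduct, dotProduct, Fintype.sum_prod_type]
  refine Finset.sum_congr rfl fun k _ => ?_
  rw [Finset.sum_eq_single j]
  · rw [Matrix.kroneckerMap_apply, Matrix.one_apply_eq, mul_one]
  · intro l _ hl
    rw [Matrix.kroneckerMap_apply, Matrix.one_apply_ne (Ne.symm hl), mul_zero, zero_mul]
  · intro h
    exact absurd (Finset.mem_univ _) h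

theorem star_real_mulVec {m : Type*} {A : Matrix m n ℂ} (hA : A.map (starRingEnd ℂ) = A) (v : n → ℂ) :
    star (A *ᵥ v) = A *ᵥ star v := by
  funext i
  simp only [Pi.star_apply, Matrix.mulVec, dotProduct, star_sum]
  refine Finset.sum_congr rfl fun j _ => ?_
  rw [star_mul']
  congr 1
  exact congrFun (congrFun hA i) j

/-- **The norm is a polarised rational Hodge structure.** -/
theorem Fr.isHW (F : Fr c w Q L Li) (hQ : Qᵀ = Q) {H : Matrix ι ι ℂ} (G : GH c H) :
    IsHW 2 Q {2, 1, 0} (PH24 (NJ L Li H)) := by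
  obtain ⟨Dl, hDl⟩ : ∃ D, D = Matrix.diagonal (av c) ⊗ₖ Matrix.diagonal (fun j => (w j : ℂ)) := ⟨_, rfl⟩
  have hform : toC Q = Lᵀ * Dl * L := by rw [hDl]; exact F.form
  refine isHW_PH24 ?_ ?_ hQ ?_ ?_
  · rw [F.mul, F.mul, G.cube]
  · have h3 : (H ⊗ₖ (1 : Matrix J J ℂ)).map (starRingEnd ℂ) = -(H ⊗ₖ (1 : Matrix J J ℂ)) := by
      ext i j
      have h4 := congrFun (congrFun G.conj i.1) j.1
      rw [Matrix.map_apply] at h4
      rw [Matrix.map_apply, Matrix.neg_apply, Matrix.kroneckerMap_apply, map_mul, h4, Matrix.neg_apply, neg_mul]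
      congr 2
      rw [Matrix.one_apply]
      split_ifs <;> simp
    rw [NJ, Matrix.map_mul, Matrix.map_mul, F.conj, F.conji, h3, Matrix.mul_neg, Matrix.neg_mul]
  · have h3 : (H ⊗ₖ (1 : Matrix J J ℂ))ᵀ * Dl = -(Dl * (H ⊗ₖ (1 : Matrix J J ℂ))) := by
      rw [hDl, ← Matrix.kroneckerMap_transpose, Matrix.transpose_one, ← Matrix.mul_kronecker_mul, Matrix.one_mul,
        ← Matrix.mul_kronecker_mul, Matrix.mul_one, G.skew]
      ext i j
      simp only [Matrix.neg_apply, Matrix.kroneckerMap_apply, neg_mul]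
    rw [hform, NJ, Matrix.transpose_mul, Matrix.transpose_mul]
    have t1 : Liᵀ * Lᵀ = 1 := by rw [← Matrix.transpose_mul, F.LLi, Matrix.transpose_one]
    calc Lᵀ * ((H ⊗ₖ (1 : Matrix J J ℂ))ᵀ * Liᵀ) * (Lᵀ * Dl * L)
        = Lᵀ * (H ⊗ₖ (1 : Matrix J J ℂ))ᵀ * (Liᵀ * Lᵀ) * Dl * L := by simp only [Matrix.mul_assoc]
      _ = Lᵀ * ((H ⊗ₖ (1 : Matrix J J ℂ))ᵀ * Dl) * L := by rw [t1, Matrix.mul_one]; simp only [Matrix.mul_assoc]
      _ = -(Lᵀ * Dl * (L * Li) * (H ⊗ₖ (1 : Matrix J J ℂ)) * L) := by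
          rw [h3, F.LLi, Matrix.mul_one]; simp only [Matrix.neg_mul, Matrix.mul_neg, Matrix.mul_assoc]
      _ = _ := by simp only [Matrix.mul_assoc]
  · intro v hv0
    obtain ⟨Y, hY⟩ : ∃ Y, Y = L *ᵥ v := ⟨_, rfl⟩
    have hY0 : Y ≠ 0 := by
      intro h
      apply hv0
      rw [← Matrix.one_mulVec v, ← F.LiL, ← Matrix.mulVec_mulVec, ← hY, h, Matrix.mulVec_zero]
    obtain ⟨M, hM⟩ : ∃ M, M = 1 - (2 : ℂ) • (H * H) := ⟨_, rfl⟩
    have hN : 1 - (2 : ℂ) • (NJ L Li H * NJ L Li H) = NJ L Li M := by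
      rw [F.mul, hM, NJ_sub, F.one, NJ_smul]
    have h5 : v ⬝ᵥ (toC Q *ᵥ (NJ L Li M *ᵥ star v)) =
        ∑ j, (w j : ℂ) * ((fun i => Y (i, j)) ⬝ᵥ (Matrix.diagonal (av c) *ᵥ (M *ᵥ star (fun i => Y (i, j))))) := by
      have h6 : v ⬝ᵥ (toC Q *ᵥ (NJ L Li M *ᵥ star v)) = Y ⬝ᵥ (Dl *ᵥ ((M ⊗ₖ (1 : Matrix J J ℂ)) *ᵥ star Y)) := by
        rw [hY, star_real_mulVec F.conj, hform, NJ]
        simp only [← Matrix.mulVec_mulVec]
        rw [Matrix.mulVec_mulVec _ L Li, F.LLi, Matrix.one_mulVec, Matrix.dotProduct_mulVec v,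
          ← Matrix.mulVec_transpose, Matrix.transpose_transpose]
      rw [h6, dotProduct, Fintype.sum_prod_type_right]
      refine Finset.sum_congr rfl fun j _ => ?_
      rw [dotProduct, Finset.mul_sum]
      refine Finset.sum_congr rfl fun i _ => ?_
      rw [hDl, Matrix.diagonal_kronecker_diagonal, Matrix.mulVec_diagonal, Matrix.mulVec_diagonal]
      have h7 := congrFun (kron_mulVec M (star Y) j) i
      rw [h7]
      have h8 : (fun i => star Y (i, j)) = star (fun i => Y (i, j)) := rfl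
      rw [h8]
      ring
    rw [hN, h5, Complex.re_sum]
    have hnz : ∃ j, (fun i => Y (i, j)) ≠ 0 := by
      by_contra hcon
      push Not at hcon
      exact hY0 (funext fun ij => congrFun (hcon ij.2) ij.1)
    obtain ⟨j, hj⟩ := hnz
    refine Finset.sum_pos' (fun k _ => ?_) ⟨j, Finset.mem_univ j, ?_⟩
    · rw [Complex.re_ofReal_mul]
      by_cases hk : (fun i => Y (i, k)) = 0
      · rw [hk]
        simp
      · rw [hM]
        exact le_of_lt (mul_pos (F.pos k) (G.pos _ hk))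
    · rw [Complex.re_ofReal_mul, hM]
      exact mul_pos (F.pos j) (G.pos _ hj)

/-- the blocks of a matrix that commutes with `B ⊗ 1` -/
theorem blk_comm {E : Matrix (ι × J) (ι × J) ℂ} {B : Matrix ι ι ℂ}
    (h : E * (B ⊗ₖ (1 : Matrix J J ℂ)) = (B ⊗ₖ (1 : Matrix J J ℂ)) * E) (j l : J) :
    (Matrix.of fun i k => E (i, j) (k, l)) * B = B * (Matrix.of fun i k => E (i, j) (k, l)) := by
  ext i k
  have h1 := congrFun (congrFun h (i, j)) (k, l)
  rw [Matrix.mul_apply, Matrix.mul_apply, Fintype.sum_prod_type, Fintype.sum_prod_type] at h1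
  rw [Matrix.mul_apply, Matrix.mul_apply]
  calc ∑ x, (Matrix.of fun i k => E (i, j) (k, l)) i x * B x k
      = ∑ x, ∑ y, E (i, j) (x, y) * (B ⊗ₖ (1 : Matrix J J ℂ)) (x, y) (k, l) := by
        refine Finset.sum_congr rfl fun x _ => ?_
        rw [Finset.sum_eq_single l]
        · rw [Matrix.kroneckerMap_apply, Matrix.one_apply_eq, mul_one]; rfl
        · intro y _ hy
          rw [Matrix.kroneckerMap_apply, Matrix.one_apply_ne hy, mul_zero, mul_zero]
        · intro hh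
          exact absurd (Finset.mem_univ _) hh
    _ = ∑ x, ∑ y, (B ⊗ₖ (1 : Matrix J J ℂ)) (i, j) (x, y) * E (x, y) (k, l) := h1
    _ = ∑ x, B i x * (Matrix.of fun i k => E (i, j) (k, l)) x k := by
        refine Finset.sum_congr rfl fun x _ => ?_
        rw [Finset.sum_eq_single j]
        · rw [Matrix.kroneckerMap_apply, Matrix.one_apply_eq, mul_one]; rfl
        · intro y _ hy
          rw [Matrix.kroneckerMap_apply, Matrix.one_apply_ne (Ne.symm hy), mul_zero, zero_mul]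
        · intro hh
          exact absurd (Finset.mem_univ _) hh

variable {p : ι → ι} {s : ι → ℂ}

/-- a matrix that commutes with an open part of the family is a scalar -/
theorem scalar_of_open (h : Par c p s) {j0 j1 m0 : ι} (hj0 : c j0 = 1) (hj1 : c j1 = 1) (hj : j0 ≠ j1) (hm0 : c m0 = 0)
    (U : Set (GT c)) (hU : IsOpen U) (hne : U.Nonempty) (b : Matrix ι ι ℂ)
    (hbt : ∀ t ∈ U, b * Hf c p s (t : Matrix ι ι ℝ) = Hf c p s (t : Matrix ι ι ℝ) * b) :
    ∃ z : ℂ, b = z • (1 : Matrix ι ι ℂ) := by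
  obtain ⟨⟨g, hg⟩, hgU⟩ := hne
  have c1 : PGN.rC g * PGN.rC (gi c g) = 1 := by rw [← PGN.rC_mul, mul_gi h.c01 hg, PGN.rC_one]
  have c2 : PGN.rC (gi c g) * PGN.rC g = 1 := by rw [← PGN.rC_mul, gi_mul h.c01 hg, PGN.rC_one]
  have hconj : ∀ {X : Matrix ι ι ℂ}, b * (PGN.rC g * X * PGN.rC (gi c g)) = (PGN.rC g * X * PGN.rC (gi c g)) * b →
      (PGN.rC (gi c g) * b * PGN.rC g) * X = X * (PGN.rC (gi c g) * b * PGN.rC g) := by
    intro X hX
    calc (PGN.rC (gi c g) * b * PGN.rC g) * X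
        = PGN.rC (gi c g) * (b * (PGN.rC g * X * PGN.rC (gi c g))) * PGN.rC g := by
          simp only [mul_assoc]; rw [c2, mul_one]
      _ = PGN.rC (gi c g) * ((PGN.rC g * X * PGN.rC (gi c g)) * b) * PGN.rC g := by rw [hX]
      _ = (PGN.rC (gi c g) * PGN.rC g) * X * (PGN.rC (gi c g) * b * PGN.rC g) := by simp only [mul_assoc]
      _ = _ := by rw [c2, one_mul]
  have hF : ∀ j m, c j = 1 → c m = 0 →
      (PGN.rC (gi c g) * b * PGN.rC g) * F j m = F j m * (PGN.rC (gi c g) * b * PGN.rC g) := by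
    intro j m hj hm
    have hjm : p j ≠ m := by
      intro hh
      have h3 := h.cp j
      rw [hh, hm, hj] at h3
      exact zero_ne_one h3
    have hpj : c (p j) = 1 := by rw [h.cp, hj]
    have hiso : ∀ u : ℝ, g * bst (p j) m u ∈ GT c := by
      intro u
      have hg' : gᵀ * Dr c * g = Dr c := hg
      show (g * bst (p j) m u)ᵀ * Dr c * (g * bst (p j) m u) = Dr c
      rw [Matrix.transpose_mul]
      calc _ = (bst (p j) m u)ᵀ * (gᵀ * Dr c * g) * bst (p j) m u := by simp only [mul_assoc]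
        _ = _ := by rw [hg', bst_isom hpj hm]
    have hcont : Continuous fun u : ℝ => (⟨g * bst (p j) m u, hiso u⟩ : GT c) :=
      Continuous.subtype_mk (continuous_const.matrix_mul (bst_cont (p j) m)) _
    have hV : IsOpen ((fun u : ℝ => (⟨g * bst (p j) m u, hiso u⟩ : GT c)) ⁻¹' U) := hU.preimage hcont
    have h0V : (0 : ℝ) ∈ ((fun u : ℝ => (⟨g * bst (p j) m u, hiso u⟩ : GT c)) ⁻¹' U) := by
      rw [Set.mem_preimage]
      have h2 : (⟨g * bst (p j) m 0, hiso 0⟩ : GT c) = ⟨g, hg⟩ := by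
        apply Subtype.ext
        show g * bst (p j) m 0 = g
        rw [bst_zero hjm, mul_one]
      rw [h2]
      exact hgU
    obtain ⟨ε, hε, hball⟩ := Metric.isOpen_iff.1 hV 0 h0V
    have key : ∀ u : ℝ, |u| < ε → (PGN.rC (gi c g) * b * PGN.rC g) *
        (PGN.rC (bst (p j) m u) * Hb p s * PGN.rC (bst (p j) m (-u))) =
        (PGN.rC (bst (p j) m u) * Hb p s * PGN.rC (bst (p j) m (-u))) * (PGN.rC (gi c g) * b * PGN.rC g) := by
      intro u hu
      apply hconj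
      have h2 := hbt _ (hball (by rwa [Metric.mem_ball, Real.dist_eq, sub_zero]))
      have h3 : gi c (g * bst (p j) m u) = bst (p j) m (-u) * gi c g := by
        have h4 := gi_mul h.c01 (hiso u)
        have h5 : (g * bst (p j) m u) * (bst (p j) m (-u) * gi c g) = 1 := by
          calc _ = g * (bst (p j) m u * bst (p j) m (-u)) * gi c g := by simp only [mul_assoc]
            _ = 1 := by rw [bst_mul_neg hjm, mul_one, mul_gi h.c01 hg]
        exact left_inv_eq_right_inv h4 h5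
      have h6 : Hf c p s (g * bst (p j) m u) =
          PGN.rC g * (PGN.rC (bst (p j) m u) * Hb p s * PGN.rC (bst (p j) m (-u))) * PGN.rC (gi c g) := by
        rw [Hf, h3, PGN.rC_mul, PGN.rC_mul]
        simp only [mul_assoc]
      rw [← h6]
      exact h2
    have hu : 0 < ε / 2 := by linarith
    have k1 := key (ε / 2) (by rw [abs_of_pos hu]; linarith)
    have k2 := key (-(ε / 2)) (by rw [abs_neg, abs_of_pos hu]; linarith)
    rw [neg_neg] at k2
    have k3 := h.odd hpj hm (ε / 2)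
    rw [h.inv] at k3
    have k4 : (PGN.rC (gi c g) * b * PGN.rC g) * ((2 * ((ε / 2 : ℝ) : ℂ) * s (p j)) • F j m) =
        ((2 * ((ε / 2 : ℝ) : ℂ) * s (p j)) • F j m) * (PGN.rC (gi c g) * b * PGN.rC g) := by
      rw [← k3, mul_sub, sub_mul, k1, k2]
    rw [mul_smul_comm, smul_mul_assoc] at k4
    refine smul_right_injective _ ?_ k4
    have h7 : s (p j) ≠ 0 := by
      intro hh
      have h8 := h.s1 (p j) hpj
      rw [hh, mul_zero] at h8
      norm_num at h8
    refine mul_ne_zero (mul_ne_zero two_ne_zero ?_) h7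
    exact_mod_cast hu.ne'
  obtain ⟨z, hz⟩ := scalar_of_F hF h.c01 hj0 hj1 hj hm0
  refine ⟨z, ?_⟩
  calc b = (PGN.rC g * PGN.rC (gi c g)) * b * (PGN.rC g * PGN.rC (gi c g)) := by rw [c1, one_mul, mul_one]
    _ = PGN.rC g * (PGN.rC (gi c g) * b * PGN.rC g) * PGN.rC (gi c g) := by simp only [mul_assoc]
    _ = _ := by rw [hz, mul_smul_comm, mul_one, smul_mul_assoc, c1]

/-- the endomorphisms of an open part of the family act on the second factor only -/
theorem Fr.blocks (F : Fr c w Q L Li) (h : Par c p s) {j0 j1 m0 : ι} (hj0 : c j0 = 1) (hj1 : c j1 = 1) (hj : j0 ≠ j1)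
    (hm0 : c m0 = 0) (U : Set (GT c)) (hU : IsOpen U) (hne : U.Nonempty) (A : Matrix n n ℂ)
    (hA : ∀ t ∈ U, ∀ q, A * PH24 (NJ L Li (Hf c p s (t : Matrix ι ι ℝ))) q =
      PH24 (NJ L Li (Hf c p s (t : Matrix ι ι ℝ))) q * A) :
    ∃ la : J → J → ℂ, ∀ i j k l, (L * A * Li) (i, j) (k, l) = if i = k then la j l else 0 := by
  obtain ⟨E, hE⟩ : ∃ E, E = L * A * Li := ⟨_, rfl⟩
  have hEt : ∀ t ∈ U, E * (Hf c p s (t : Matrix ι ι ℝ) ⊗ₖ (1 : Matrix J J ℂ)) =
      (Hf c p s (t : Matrix ι ι ℝ) ⊗ₖ (1 : Matrix J J ℂ)) * E := by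
    intro t ht
    have h1 := PH24_comm (hA t ht)
    rw [NJ] at h1
    rw [hE]
    calc L * A * Li * (Hf c p s (t : Matrix ι ι ℝ) ⊗ₖ (1 : Matrix J J ℂ))
        = L * (A * (Li * (Hf c p s (t : Matrix ι ι ℝ) ⊗ₖ (1 : Matrix J J ℂ)) * L)) * Li := by
          simp only [Matrix.mul_assoc]; rw [F.LLi, Matrix.mul_one]
      _ = L * (Li * (Hf c p s (t : Matrix ι ι ℝ) ⊗ₖ (1 : Matrix J J ℂ)) * L * A) * Li := by rw [h1]
      _ = (L * Li) * (Hf c p s (t : Matrix ι ι ℝ) ⊗ₖ (1 : Matrix J J ℂ)) * (L * A * Li) := by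
          simp only [Matrix.mul_assoc]
      _ = _ := by rw [F.LLi, Matrix.one_mul]
  have hblock : ∀ j l : J, ∃ z : ℂ, (Matrix.of fun i k => E (i, j) (k, l)) = z • (1 : Matrix ι ι ℂ) := by
    intro j l
    exact scalar_of_open h hj0 hj1 hj hm0 U hU hne _ fun t ht => blk_comm (hEt t ht) j l
  choose la hla using hblock
  refine ⟨la, fun i j k l => ?_⟩
  rw [← hE]
  have h1 := congrFun (congrFun (hla j l) i) k
  rw [Matrix.of_apply, Matrix.smul_apply, Matrix.one_apply, smul_eq_mul] at h1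
  rw [h1]
  split_ifs <;> simp

theorem NJ_cont : Continuous fun g => NJ L Li (Hf c p s g) := by
  have h1 : Continuous fun g => Hf c p s g :=
    (rC_cont.matrix_mul continuous_const).matrix_mul (rC_cont.comp gi_cont)
  have h2 : Continuous fun g => (Hf c p s g ⊗ₖ (1 : Matrix J J ℂ)) := by
    refine continuous_matrix fun x y => ?_
    simp only [Matrix.kroneckerMap_apply]
    exact (h1.matrix_elem x.1 y.1).mul continuous_const
  exact (continuous_const.matrix_mul h2).matrix_mul continuous_const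

end NK98

end MH
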