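import Pool.Agent.Helper98.NK.Not

/-!
Norms of degree `k` of Hodge structures of weight two (MP_b8862a_ag): the theorem.
-/

set_option linter.unusedSectionVars false

open Matrix
open scoped Kronecker

namespace MH

open NM94 NK98 in
/-- **For all `k ≥ 2`, `t ≥ 1` and `D > 2 t` there is a polarised rational Hodge structure with the Hodge numbers
`t D ^ (k - 1)`, `D ^ k - 2 t D ^ (k - 1)`, `t D ^ (k - 1)`, with the endomorphisms `ℚ`, the Mumford-Tate group of which is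
smaller than the group of similitudes.** -/
theorem sharp_norm_deg (k t D : ℕ) (hk : 2 ≤ k) (ht : 1 ≤ t) (hD : 2 * t < D) :
    ∃ (n : Type) (_ : Fintype n) (_ : DecidableEq n) (Q : Matrix n n ℚ) (P : ℤ → Matrix n n ℂ), IsHW 2 Q {0, 1, 2} P ∧
      (∀ A : Matrix n n ℚ, (∀ p, toC A * P p = P p * toC A) → ∃ c : ℚ, A = c • (1 : Matrix n n ℚ)) ∧
      (P 2).rank = t * D ^ (k - 1) ∧ (P 1).rank + 2 * (t * D ^ (k - 1)) = D ^ k ∧
      ∃ g : GL n ℂ, IsGQ 2 Q g ∧ g ∉ MT {0, 1, 2} P := by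
  obtain ⟨K, G, _, _, _, _, _, _, φ, θ, θ', α, hG, F⟩ := exists_fdat k (by omega)
  obtain ⟨m, rfl⟩ : ∃ m, D = 2 * t + m := ⟨D - 2 * t, by omega⟩
  have hm : 0 < m := by omega
  have hpar := par_I t m
  have hcard : Fintype.card (Ix t m) = 2 * t + m := by
    simp only [Fintype.card_sum, Fintype.card_fin]
    ring
  have hsum : ∑ i, (cI t m i : ℂ) = 2 * t := by
    rw [Fintype.sum_sum_type, Fintype.sum_sum_type]
    simp [cI]
    ring
  obtain ⟨j0, hj0⟩ : ∃ j : Ix t m, j = Sum.inl (Sum.inl ⟨0, ht⟩) := ⟨_, rfl⟩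
  obtain ⟨j1, hj1⟩ : ∃ j : Ix t m, j = Sum.inl (Sum.inr ⟨0, ht⟩) := ⟨_, rfl⟩
  obtain ⟨m0, hm0⟩ : ∃ j : Ix t m, j = Sum.inr ⟨0, hm⟩ := ⟨_, rfl⟩
  have cj0 : cI t m j0 = 1 := by rw [hj0]; rfl
  have cj1 : cI t m j1 = 1 := by rw [hj1]; rfl
  have cm0 : cI t m m0 = 0 := by rw [hm0]; rfl
  have hj : j0 ≠ j1 := by rw [hj0, hj1]; simp
  obtain ⟨Q, hQ⟩ := exists_rat F (QK (G := G) (cI t m) θ α) fun g x y => smul_QK (cI t m) θ α g x y
  have hQs : Qᵀ = Q := by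
    have h1 : (Q.map (algebraMap ℚ K))ᵀ = Q.map (algebraMap ℚ K) := by
      rw [hQ, QK, Matrix.transpose_mul, Matrix.transpose_mul, Matrix.transpose_transpose, Matrix.diagonal_transpose,
        mul_assoc]
    ext i j
    have h2 := congrFun (congrFun h1 i) j
    rw [Matrix.transpose_apply, Matrix.map_apply, Matrix.map_apply] at h2
    rw [Matrix.transpose_apply]
    exact (algebraMap ℚ K).injective h2
  have hF := fr F hpar.c01 hQ
  have hne : Nonempty (NM94.GT (cI t m)) :=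
    ⟨⟨1, by
      show (1 : Matrix (Ix t m) (Ix t m) ℝ)ᵀ * NM94.Dr (cI t m) * 1 = NM94.Dr (cI t m)
      rw [Matrix.transpose_one, one_mul, mul_one]⟩⟩
  obtain ⟨⟨g, hg⟩, hend⟩ := exists_generic27 (T := NM94.GT (cI t m))
    (fun x => PH24 (NJ (LJ G φ θ α (cI t m)) (LiJ G φ θ' α (cI t m))
      (Hf (cI t m) (pI t m) (sI t m) (x : Matrix (Ix t m) (Ix t m) ℝ))))
    (fun q => (PH24_cont q).comp (NJ_cont.comp continuous_subtype_val))
    (fun U hU hne A hA => hgenK F hpar hQ cj0 cj1 hj cm0 U hU hne A hA)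
  have GH := hpar.gh_Hf hg
  have H := hF.isHW hQs GH
  obtain ⟨N, hN⟩ : ∃ N, N = NJ (LJ G φ θ α (cI t m)) (LiJ G φ θ' α (cI t m)) (Hf (cI t m) (pI t m) (sI t m) g) :=
    ⟨_, rfl⟩
  have e3 : N * N * N = N := by
    rw [hN, hF.mul, hF.mul, GH.cube]
  have hk1 : k = (k - 1) + 1 := by omega
  have hJ : Fintype.card ({h : G // h ≠ 1} → Ix t m) = (2 * t + m) ^ (k - 1) := by
    rw [Fintype.card_fun, hcard, Fintype.card_subtype_compl, Fintype.card_subtype_eq, hG]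
  obtain ⟨r2', r1'⟩ := PH24_ranks e3 (s := t * (2 * t + m) ^ (k - 1)) (h := m * (2 * t + m) ^ (k - 1))
    (by rw [hN, hF.trace, hpar.trace_Hf hg, zero_mul])
    (by
      rw [hN, hF.mul, hF.trace, hpar.trace_sq hg, hsum, hJ]
      push_cast
      ring)
    (by
      rw [Fintype.card_fun, hcard, hG]
      conv_lhs => rw [hk1, pow_succ]
      ring)
  have hS : ({2, 1, 0} : Finset ℤ) = {0, 1, 2} := by decide
  have hI := PH24_idm e3
  have hP : ∑ q ∈ ({2, 1, 0} : Finset ℤ), (q : ℂ) • PH24 N q =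
      NJ (LJ G φ θ α (cI t m)) (LiJ G φ θ' α (cI t m)) (1 + Hf (cI t m) (pI t m) (sI t m) g) := by
    rw [PH24_grade]
    have e1 : (1 : Matrix (Ix t m) (Ix t m) ℂ) + Hf (cI t m) (pI t m) (sI t m) g =
        1 - (-1 : ℂ) • Hf (cI t m) (pI t m) (sI t m) g := by
      rw [neg_one_smul, sub_neg_eq_add]
    rw [e1, NJ_sub, hF.one, NJ_smul, neg_one_smul, sub_neg_eq_add, hN]
  obtain ⟨g', hg1, hg2⟩ := notMTK F (by omega) hQ cj0 cj1 hj hI hP
  rw [← hN] at H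
  rw [hS] at H hg2
  refine ⟨G → Ix t m, inferInstance, inferInstance, Q, PH24 N, H, ?_, r2', ?_, g', hg1, hg2⟩
  · rw [hN]
    exact hend
  · rw [r1']
    conv_rhs => rw [hk1, pow_succ]
    ring

/-- the same with the arguments in another order -/
theorem sharp_power (k D t : ℕ) (hk : 2 ≤ k) (ht : 1 ≤ t) (hD : 2 * t < D) :
    ∃ (n : Type) (_ : Fintype n) (_ : DecidableEq n) (Q : Matrix n n ℚ) (P : ℤ → Matrix n n ℂ), IsHW 2 Q {0, 1, 2} P ∧
      (∀ A : Matrix n n ℚ, (∀ p, toC A * P p = P p * toC A) → ∃ c : ℚ, A = c • (1 : Matrix n n ℚ)) ∧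
      (P 2).rank = t * D ^ (k - 1) ∧ (P 1).rank + 2 * (t * D ^ (k - 1)) = D ^ k ∧
      ∃ g : GL n ℂ, IsGQ 2 Q g ∧ g ∉ MT {0, 1, 2} P :=
  sharp_norm_deg k t D hk ht hD

end MH
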