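import Pool.Agent.Helper98.NK.Fld
import Pool.Agent.Helper98.NK.Hw

/-!
Norms of degree `k` of Hodge structures of weight two (MP_b8862a_ag): the rational structure of the tensor product over the
embeddings of the field.
-/

set_option linter.unusedSectionVars false

open Matrix
open scoped Kronecker

namespace MH

namespace NK98

section act

variable {G ι : Type} [Group G]

/-- the action on the functions -/
def sg (g : G) : (G → ι) ≃ (G → ι) where
  toFun i := fun h => i (g⁻¹ * h)
  invFun i := fun h => i (g * h)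
  left_inv i := by
    funext h
    show i (g⁻¹ * (g * h)) = i h
    rw [inv_mul_cancel_left]
  right_inv i := by
    funext h
    show i (g * (g⁻¹ * h)) = i h
    rw [mul_inv_cancel_left]

theorem sg_apply (g : G) (i : G → ι) (h : G) : sg g i h = i (g⁻¹ * h) := rfl

theorem sg_mul (g g' : G) (i : G → ι) : sg (g * g') i = sg g (sg g' i) := by
  funext h
  simp only [sg_apply, _root_.mul_inv_rev, mul_assoc]

theorem sg_one (i : G → ι) : sg (1 : G) i = i := by
  funext h
  rw [sg_apply, inv_one, one_mul]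

theorem sg_inv (g : G) (i : G → ι) : sg g (sg g⁻¹ i) = i := by
  rw [← sg_mul, mul_inv_cancel, sg_one]

theorem sg_inv' (g : G) (i : G → ι) : sg g⁻¹ (sg g i) = i := by
  rw [← sg_mul, inv_mul_cancel, sg_one]

theorem sg_update [DecidableEq G] (g : G) (i : G → ι) (h : G) (x : ι) :
    sg g (Function.update i h x) = Function.update (sg g i) (g * h) x := by
  funext l
  rw [sg_apply, Function.update_apply, Function.update_apply, sg_apply]
  by_cases hl : l = g * h
  · rw [if_pos hl, if_pos (by rw [hl, inv_mul_cancel_left])]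
  · rw [if_neg hl, if_neg (fun hh => hl (by rw [← hh, mul_inv_cancel_left]))]

theorem sg_const (g : G) (x : ι) : sg g (fun _ => x) = fun _ : G => x := rfl

end act

variable {K G ι : Type} [Field K] [CharZero K] [Group G] [Fintype G] [DecidableEq G] [MulSemiringAction G K]
  [Fintype ι] [DecidableEq ι]

/-- the matrix of the descent -/
def LK (θ : K) : Matrix (G → ι) (G → ι) K := fun i j => ∑ g : G, if sg g j = i then g • θ else 0

/-- the inverse matrix -/
def LiK (θ' : K) : Matrix (G → ι) (G → ι) K := fun i j => ∑ g : G, if j = sg g i then g • θ' else 0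

theorem smul_ite_zero' (g : G) (P : Prop) [Decidable P] (x : K) : g • (if P then x else 0) = if P then g • x else 0 := by
  split_ifs
  · rfl
  · exact smul_zero g

theorem smul_LK (θ : K) (h : G) (i j : G → ι) : h • LK θ i j = LK θ (sg h i) j := by
  rw [LK, Finset.smul_sum]
  refine Fintype.sum_equiv (Equiv.mulLeft h) _ _ fun g => ?_
  rw [smul_ite_zero', Equiv.coe_mulLeft, smul_smul]
  congr 1
  rw [sg_mul]
  exact propext (sg h).injective.eq_iff.symm

theorem smul_LiK (θ' : K) (h : G) (i j : G → ι) : h • LiK θ' i j = LiK θ' i (sg h j) := by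
  rw [LiK, Finset.smul_sum]
  refine Fintype.sum_equiv (Equiv.mulLeft h) _ _ fun g => ?_
  rw [smul_ite_zero', Equiv.coe_mulLeft, smul_smul]
  congr 1
  rw [sg_mul]
  exact propext (sg h).injective.eq_iff.symm

variable {φ : K →+* ℝ} {θ θ' α : K}

theorem LiK_mul_LK (F : Fdat K G φ θ θ' α) : (LiK θ' : Matrix (G → ι) (G → ι) K) * LK θ = 1 := by
  ext i j
  rw [Matrix.mul_apply]
  simp only [LiK, LK, Finset.sum_mul_sum]
  rw [Finset.sum_comm]
  have h1 : ∀ g : G, ∑ l : G → ι, ∑ g' : G, (if l = sg g i then g • θ' else 0) * (if sg g' j = l then g' • θ else 0) =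
      ∑ m : G, if sg m j = i then (g • θ') * (g • m • θ) else 0 := by
    intro g
    rw [Finset.sum_comm]
    refine (Fintype.sum_equiv (Equiv.mulLeft g) _ _ fun m => ?_).symm
    symm
    rw [Finset.sum_eq_single (sg g i)]
    · rw [if_pos rfl, Equiv.coe_mulLeft, sg_mul]
      by_cases h : sg m j = i
      · rw [if_pos (by rw [h]), if_pos h, smul_smul]
      · rw [if_neg (fun hh => h ((sg g).injective hh)), if_neg h, mul_zero]
    · intro l _ hl
      rw [if_neg hl, zero_mul]
    · intro h
      exact absurd (Finset.mem_univ _) h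
  rw [Finset.sum_congr rfl fun g _ => h1 g, Finset.sum_comm]
  have h2 : ∀ m : G, (∑ g : G, if sg m j = i then (g • θ') * (g • m • θ) else 0) =
      if sg m j = i then (if m = 1 then 1 else 0) else 0 := by
    intro m
    split_ifs with h3 h4
    · rw [F.dual, if_pos h4]
    · rw [F.dual, if_neg h4]
    · rw [Finset.sum_const_zero]
  rw [Finset.sum_congr rfl fun m _ => h2 m, Finset.sum_eq_single 1]
  · rw [sg_one, if_pos rfl, Matrix.one_apply]
    congr 1
    exact propext eq_comm
  · intro m _ hm
    rw [if_neg hm, ite_self]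
  · intro h
    exact absurd (Finset.mem_univ _) h

theorem LK_mul_LiK (F : Fdat K G φ θ θ' α) : (LK θ : Matrix (G → ι) (G → ι) K) * LiK θ' = 1 :=
  mul_eq_one_comm.1 (LiK_mul_LK F)

/-- the coefficient of the form -/
def aK (c : ι → ℚ) (α : K) (x : ι) : K := if c x = 1 then α else 1

/-- the coefficients of the form on the tensor product -/
def dK (c : ι → ℚ) (α : K) (i : G → ι) : K := ∏ h : G, h • aK c α (i h)

theorem smul_dK (c : ι → ℚ) (α : K) (g : G) (i : G → ι) : g • dK c α i = dK c α (sg g i) := by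
  rw [dK, dK, Finset.smul_prod']
  refine Fintype.prod_equiv (Equiv.mulLeft g) _ _ fun h => ?_
  rw [Equiv.coe_mulLeft, smul_smul, sg_apply, inv_mul_cancel_left]

/-- fixed matrices are rational -/
theorem exists_rat (F : Fdat K G φ θ θ' α) {X : Type} (M : Matrix X X K) (hM : ∀ (g : G) x y, g • M x y = M x y) :
    ∃ B : Matrix X X ℚ, B.map (algebraMap ℚ K) = M := by
  have h1 : ∀ x y, ∃ q : ℚ, M x y = q := fun x y => F.fix _ fun g => hM g x y
  choose B hB using h1
  exact ⟨Matrix.of B, by ext x y; rw [Matrix.map_apply, Matrix.of_apply, hB]; simp⟩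

/-- descent of an equivariant matrix -/
theorem descend (F : Fdat K G φ θ θ' α) {X : Type} [Fintype X] (σ : G → X ≃ X) {L Li N : Matrix X X K}
    (hL : ∀ g x y, g • L x y = L (σ g x) y) (hLi : ∀ g x y, g • Li x y = Li x (σ g y))
    (hN : ∀ g x y, g • N x y = N (σ g x) (σ g y)) : ∃ B : Matrix X X ℚ, B.map (algebraMap ℚ K) = Li * N * L := by
  refine exists_rat F _ fun g x y => ?_
  simp only [Matrix.mul_apply, Finset.sum_mul, Finset.smul_sum]
  rw [← (σ g).sum_comp (fun a => ∑ b, Li x b * N b a * L a y)]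
  refine Finset.sum_congr rfl fun a _ => ?_
  rw [← (σ g).sum_comp (fun b => Li x b * N b (σ g a) * L (σ g a) y)]
  refine Finset.sum_congr rfl fun b _ => ?_
  rw [smul_mul', smul_mul', hL, hLi, hN]

/-- the form over the field -/
def QK (c : ι → ℚ) (θ α : K) : Matrix (G → ι) (G → ι) K := (LK θ)ᵀ * Matrix.diagonal (dK c α) * LK θ

theorem smul_QK (c : ι → ℚ) (θ α : K) (g : G) (i j : G → ι) : g • QK c θ α i j = QK c θ α i j := by
  have h1 : ∀ i j : G → ι, QK c θ α i j = ∑ a : G → ι, LK θ a i * dK c α a * LK θ a j := by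
    intro i j
    rw [QK, Matrix.mul_apply]
    refine Finset.sum_congr rfl fun a _ => ?_
    rw [Matrix.mul_diagonal, Matrix.transpose_apply]
  rw [h1, Finset.smul_sum, ← (sg g).sum_comp (fun a => LK θ a i * dK c α a * LK θ a j)]
  refine Finset.sum_congr rfl fun a _ => ?_
  rw [smul_mul', smul_mul', smul_LK, smul_LK, smul_dK]

/-- a rational matrix over the field in the coordinates of the tensor product -/
def EK (θ θ' : K) (A : Matrix (G → ι) (G → ι) ℚ) : Matrix (G → ι) (G → ι) K := LK θ * A.map (algebraMap ℚ K) * LiK θ'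

theorem smul_rat (g : G) (q : ℚ) : g • (q : K) = q := by
  have := map_ratCast (MulSemiringAction.toRingHom G K g) q
  exact this

theorem smul_EK (θ θ' : K) (A : Matrix (G → ι) (G → ι) ℚ) (g : G) (i j : G → ι) :
    g • EK θ θ' A i j = EK θ θ' A (sg g i) (sg g j) := by
  simp only [EK, Matrix.mul_apply, Finset.sum_mul, Finset.smul_sum]
  refine Finset.sum_congr rfl fun a _ => ?_
  refine Finset.sum_congr rfl fun b _ => ?_
  rw [smul_mul', smul_mul', smul_LK, smul_LiK]
  congr 2
  rw [Matrix.map_apply]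
  exact smul_rat g _

/-- **A rational matrix that acts trivially on the factor of the identity is a scalar.** -/
theorem scalar_of_slot (F : Fdat K G φ θ θ' α) (A : Matrix (G → ι) (G → ι) ℚ) (i0 : ι)
    (h0 : ∀ a b : G → ι, a 1 ≠ b 1 → EK θ θ' A a b = 0)
    (h1 : ∀ (a b : G → ι) (x : ι), a 1 = b 1 →
      EK θ θ' A (Function.update a 1 x) (Function.update b 1 x) = EK θ θ' A a b) :
    ∃ q : ℚ, A = q • (1 : Matrix (G → ι) (G → ι) ℚ) := by
  have k0 : ∀ (h : G) (a b : G → ι), a h ≠ b h → EK θ θ' A a b = 0 := by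
    intro h a b hab
    have h2 := smul_EK θ θ' A h (sg h⁻¹ a) (sg h⁻¹ b)
    rw [sg_inv, sg_inv, h0, smul_zero] at h2
    · exact h2.symm
    · rw [sg_apply, sg_apply, inv_inv, mul_one]
      exact hab
  have k1 : ∀ (h : G) (a : G → ι) (x : ι),
      EK θ θ' A (Function.update a h x) (Function.update a h x) = EK θ θ' A a a := by
    intro h a x
    have h2 := smul_EK θ θ' A h (sg h⁻¹ (Function.update a h x)) (sg h⁻¹ (Function.update a h x))
    have h3 := smul_EK θ θ' A h (sg h⁻¹ a) (sg h⁻¹ a)
    rw [sg_inv] at h2 h3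
    rw [← h2, ← h3, sg_update, inv_mul_cancel, h1 _ _ _ rfl]
  have k2 : ∀ a b : G → ι, EK θ θ' A a a = EK θ θ' A b b := by
    intro a b
    have h2 : ∀ s : Finset G, EK θ θ' A (s.piecewise a b) (s.piecewise a b) = EK θ θ' A b b := by
      intro s
      induction s using Finset.induction_on with
      | empty => rw [Finset.piecewise_empty]
      | insert h s _ ih => rw [Finset.piecewise_insert, k1, ih]
    have h3 := h2 Finset.univ
    rw [Finset.piecewise_univ] at h3
    exact h3
  obtain ⟨z, hz⟩ : ∃ z, z = EK θ θ' A (fun _ => i0) (fun _ => i0) := ⟨_, rfl⟩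
  have k3 : EK θ θ' A = z • (1 : Matrix (G → ι) (G → ι) K) := by
    ext a b
    rw [Matrix.smul_apply, Matrix.one_apply, smul_eq_mul]
    by_cases hab : a = b
    · subst hab
      rw [if_pos rfl, mul_one, hz]
      exact k2 _ _
    · rw [if_neg hab, mul_zero]
      obtain ⟨h, hh⟩ := Function.ne_iff.1 hab
      exact k0 h a b hh
  have k4 : A.map (algebraMap ℚ K) = z • (1 : Matrix (G → ι) (G → ι) K) := by
    calc A.map (algebraMap ℚ K) = (LiK θ' * LK θ) * A.map (algebraMap ℚ K) * (LiK θ' * LK θ) := by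
          rw [LiK_mul_LK F, one_mul, mul_one]
      _ = LiK θ' * EK θ θ' A * LK θ := by rw [EK]; simp only [mul_assoc]
      _ = _ := by rw [k3, mul_smul_comm, mul_one, smul_mul_assoc, LiK_mul_LK F]
  refine ⟨A (fun _ => i0) (fun _ => i0), ?_⟩
  have k5 : ∀ a b : G → ι, ((A a b : ℚ) : K) = if a = b then z else 0 := by
    intro a b
    have h2 := congrFun (congrFun k4 a) b
    rw [Matrix.map_apply, Matrix.smul_apply, Matrix.one_apply, smul_eq_mul] at h2
    have h3 : (algebraMap ℚ K) (A a b) = ((A a b : ℚ) : K) := by simp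
    rw [h3] at h2
    rw [h2]
    split_ifs <;> simp
  ext a b
  rw [Matrix.smul_apply, Matrix.one_apply, smul_eq_mul]
  have h2 := k5 a b
  have h3 := k5 (fun _ => i0) (fun _ => i0)
  rw [if_pos rfl] at h3
  by_cases hab : a = b
  · rw [if_pos hab] at h2 ⊢
    rw [← h3] at h2
    rw [mul_one]
    exact_mod_cast h2
  · rw [if_neg hab] at h2 ⊢
    rw [mul_zero]
    exact_mod_cast h2

end NK98

end MH
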