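import Pool.Agent.Helper98.NK.Str

/-!
Norms of degree `k` of Hodge structures of weight two (MP_b8862a_ag): the Mumford-Tate group is not the full group.
-/

set_option linter.unusedSectionVars false

open Matrix
open scoped Kronecker

namespace MH

namespace NK98

open NM94
open PGN (W2 pw pw_mul mul_pw pw_comm W2_orth W2_orth')

section rot

variable {X : Type} [Fintype X] [DecidableEq X]

/-- the two coordinates -/
def U2 (x0 x1 : X) : Matrix X (Fin 2) ℂ := fun p k => if p = ![x0, x1] k then 1 else 0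

/-- the rotation in the plane of the two coordinates -/
noncomputable def rot (x0 x1 : X) : Matrix X X ℂ := 1 + U2 x0 x1 * (W2 * (U2 x0 x1)ᵀ)

variable {x0 x1 : X}

theorem U2_tr (h : x0 ≠ x1) : (U2 x0 x1)ᵀ * U2 x0 x1 = 1 := by
  ext k l
  rw [Matrix.mul_apply, Finset.sum_eq_single (![x0, x1] k)]
  · rw [Matrix.transpose_apply, U2, if_pos rfl, one_mul, U2, Matrix.one_apply]
    congr 1
    fin_cases k <;> fin_cases l <;> simp [h, h.symm]
  · intro p _ hp
    rw [Matrix.transpose_apply, U2, if_neg hp, zero_mul]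
  · intro h
    exact absurd (Finset.mem_univ _) h

theorem rot_transpose : (rot x0 x1)ᵀ = 1 + U2 x0 x1 * (W2ᵀ * (U2 x0 x1)ᵀ) := by
  rw [rot, Matrix.transpose_add, Matrix.transpose_one, Matrix.transpose_mul, Matrix.transpose_mul,
    Matrix.transpose_transpose, Matrix.mul_assoc]

theorem rot_prod (h : x0 ≠ x1) (A B : Matrix (Fin 2) (Fin 2) ℂ) :
    (1 + U2 x0 x1 * (A * (U2 x0 x1)ᵀ)) * (1 + U2 x0 x1 * (B * (U2 x0 x1)ᵀ)) =
      1 + U2 x0 x1 * ((A + B + A * B) * (U2 x0 x1)ᵀ) := by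
  have e1 : U2 x0 x1 * (A * (U2 x0 x1)ᵀ) * (U2 x0 x1 * (B * (U2 x0 x1)ᵀ)) =
      U2 x0 x1 * ((A * B) * (U2 x0 x1)ᵀ) := by
    calc U2 x0 x1 * (A * (U2 x0 x1)ᵀ) * (U2 x0 x1 * (B * (U2 x0 x1)ᵀ))
        = U2 x0 x1 * (A * ((U2 x0 x1)ᵀ * U2 x0 x1) * (B * (U2 x0 x1)ᵀ)) := by simp only [Matrix.mul_assoc]
      _ = _ := by rw [U2_tr h, Matrix.mul_one, ← Matrix.mul_assoc A B]
  rw [add_mul, mul_add, mul_add, one_mul, mul_one, one_mul, e1, Matrix.add_mul, Matrix.add_mul, Matrix.mul_add,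
    Matrix.mul_add]
  abel

theorem rot_tr_mul (h : x0 ≠ x1) : (rot x0 x1)ᵀ * rot x0 x1 = 1 := by
  rw [rot_transpose, rot, rot_prod h, W2_orth, Matrix.zero_mul, Matrix.mul_zero, add_zero]

theorem rot_mul_tr (h : x0 ≠ x1) : rot x0 x1 * (rot x0 x1)ᵀ = 1 := by
  rw [rot_transpose, rot, rot_prod h, W2_orth', Matrix.zero_mul, Matrix.mul_zero, add_zero]

theorem rot_det (h : x0 ≠ x1) : (rot x0 x1).det = 1 := by
  rw [rot, Matrix.det_one_add_mul_comm, Matrix.mul_assoc, U2_tr h, Matrix.mul_one, Matrix.det_fin_two]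
  simp [W2]
  norm_num

/-- the rotation commutes with a matrix that is a scalar on the plane -/
theorem rot_comm {M : Matrix X X ℂ} {t : ℂ} (h1 : M * U2 x0 x1 = t • U2 x0 x1) (h2 : (U2 x0 x1)ᵀ * M = t • (U2 x0 x1)ᵀ) :
    rot x0 x1 * M = M * rot x0 x1 := by
  rw [rot, mul_add, add_mul, one_mul, mul_one, ← Matrix.mul_assoc M, h1, Matrix.mul_assoc, Matrix.mul_assoc, h2,
    Matrix.mul_smul, Matrix.mul_smul, Matrix.smul_mul]

/-- the rotation as an element of the group -/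
noncomputable def rotG (h : x0 ≠ x1) : GL X ℂ := ⟨rot x0 x1, (rot x0 x1)ᵀ, rot_mul_tr h, rot_tr_mul h⟩

/-- the column of the rotation -/
noncomputable def rcol (x0 x1 p : X) : ℝ := if p = x0 then 3 / 5 else if p = x1 then 4 / 5 else 0

theorem rcol_nonneg (p : X) : 0 ≤ rcol x0 x1 p := by
  rw [rcol]
  split_ifs <;> norm_num

theorem rot_col (h : x0 ≠ x1) (p : X) : rot x0 x1 p x0 = (rcol x0 x1 p : ℂ) := by
  rw [rot, Matrix.add_apply, Matrix.mul_apply]
  simp only [Matrix.mul_apply, Matrix.transpose_apply, Fin.sum_univ_two, U2, Matrix.cons_val_zero, Matrix.cons_val_one,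
    Matrix.one_apply, rcol]
  by_cases h0 : p = x0
  · subst h0
    simp [h, W2]
  · by_cases h1 : p = x1
    · subst h1
      simp [h, h.symm, W2]
    · simp [h0, h1]

end rot

section swap

variable {G ι : Type} [Group G] [Fintype G] [DecidableEq G] [Fintype ι] [DecidableEq ι]

/-- exchange of one index -/
def tw (h : G) (x : (G → ι) × (G → ι)) : (G → ι) × (G → ι) :=
  (Function.update x.1 h (x.2 h), Function.update x.2 h (x.1 h))

theorem tw_inv (h : G) : Function.Involutive (tw (ι := ι) h) := by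
  intro x
  simp only [tw, Function.update_self, Function.update_idem, Function.update_eq_self]

/-- the action on the pairs -/
def sg2 (g : G) : (G → ι) × (G → ι) ≃ (G → ι) × (G → ι) := Equiv.prodCongr (sg g) (sg g)

theorem tw_sg (g h : G) (x : (G → ι) × (G → ι)) : tw (g * h) (sg2 g x) = sg2 g (tw h x) := by
  refine Prod.ext ?_ ?_
  · show Function.update (sg g x.1) (g * h) (sg g x.2 (g * h)) = sg g (Function.update x.1 h (x.2 h))
    rw [sg_update, sg_apply g x.2, inv_mul_cancel_left]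
  · show Function.update (sg g x.2) (g * h) (sg g x.1 (g * h)) = sg g (Function.update x.2 h (x.1 h))
    rw [sg_update, sg_apply g x.1, inv_mul_cancel_left]

/-- the sum of the exchanges -/
def TT (G ι : Type) [Group G] [Fintype G] [DecidableEq G] [Fintype ι] [DecidableEq ι] (R : Type) [CommRing R] :
    Matrix ((G → ι) × (G → ι)) ((G → ι) × (G → ι)) R := ∑ h : G, pw R (tw h)

theorem TT_apply {R : Type} [CommRing R] (x y : (G → ι) × (G → ι)) :
    TT G ι R x y = ∑ h : G, if tw h x = y then 1 else 0 := by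
  rw [TT, Matrix.sum_apply]
  rfl

theorem TT_map {R R' : Type} [CommRing R] [CommRing R'] (f : R →+* R') : (TT G ι R).map f = TT G ι R' := by
  ext x y
  rw [Matrix.map_apply, TT_apply, TT_apply, map_sum]
  refine Finset.sum_congr rfl fun h _ => ?_
  split_ifs
  · exact map_one f
  · exact map_zero f

theorem smul_TT {K : Type} [Field K] [MulSemiringAction G K] (g : G) (x y : (G → ι) × (G → ι)) :
    g • TT G ι K x y = TT G ι K (sg2 g x) (sg2 g y) := by
  rw [TT_apply, TT_apply, Finset.smul_sum]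
  refine Fintype.sum_equiv (Equiv.mulLeft g) _ _ fun h => ?_
  rw [Equiv.coe_mulLeft]
  have h1 : (tw (g * h) (sg2 g x) = sg2 g y) ↔ tw h x = y := by
    rw [tw_sg]
    exact (sg2 g).injective.eq_iff
  by_cases h2 : tw h x = y
  · rw [if_pos h2, if_pos (h1.2 h2), smul_one]
  · rw [if_neg h2, if_neg (fun h3 => h2 (h1.1 h3)), smul_zero]

/-- the tensor product of matrices -/
def ten (N : G → Matrix ι ι ℂ) : Matrix (G → ι) (G → ι) ℂ := fun a b => ∏ h, N h (a h) (b h)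

theorem ten_one : ten (fun _ : G => (1 : Matrix ι ι ℂ)) = 1 := by
  ext a b
  rw [ten, Matrix.one_apply]
  by_cases hab : a = b
  · subst hab
    rw [if_pos rfl]
    exact Finset.prod_eq_one fun h _ => Matrix.one_apply_eq _
  · rw [if_neg hab]
    obtain ⟨h, hh⟩ := Function.ne_iff.1 hab
    exact Finset.prod_eq_zero (Finset.mem_univ h) (Matrix.one_apply_ne hh)

theorem ten_tw (N N' : G → Matrix ι ι ℂ) (h : G) (x y : (G → ι) × (G → ι)) :
    (ten N ⊗ₖ ten N') (tw h x) (tw h y) =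
      (ten (Function.update N h (N' h)) ⊗ₖ ten (Function.update N' h (N h))) x y := by
  rw [Matrix.kroneckerMap_apply, Matrix.kroneckerMap_apply, ten, ten, ten, ten, ← Finset.prod_mul_distrib,
    ← Finset.prod_mul_distrib]
  refine Finset.prod_congr rfl fun g _ => ?_
  by_cases hg : g = h
  · subst hg
    simp only [tw, Function.update_self]
    ring
  · simp only [tw, Function.update_of_ne hg]

/-- the sum of the exchanges commutes with what acts on one factor -/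
theorem TT_comm (M : Matrix ι ι ℂ) : TT G ι ℂ * (ten (Function.update (fun _ : G => (1 : Matrix ι ι ℂ)) 1 M) ⊗ₖ
      (1 : Matrix (G → ι) (G → ι) ℂ) +
      (1 : Matrix (G → ι) (G → ι) ℂ) ⊗ₖ ten (Function.update (fun _ : G => (1 : Matrix ι ι ℂ)) 1 M)) =
    (ten (Function.update (fun _ : G => (1 : Matrix ι ι ℂ)) 1 M) ⊗ₖ (1 : Matrix (G → ι) (G → ι) ℂ) +
      (1 : Matrix (G → ι) (G → ι) ℂ) ⊗ₖ ten (Function.update (fun _ : G => (1 : Matrix ι ι ℂ)) 1 M)) * TT G ι ℂ := by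
  rw [TT, Finset.sum_mul, Finset.mul_sum]
  refine Finset.sum_congr rfl fun h _ => ?_
  refine pw_comm (tw_inv h) fun x y => ?_
  rw [← ten_one, Matrix.add_apply, Matrix.add_apply, ten_tw, ten_tw]
  by_cases hh : h = 1
  · subst hh
    simp only [Function.update_self, Function.update_idem]
    have e1 : Function.update (fun _ : G => (1 : Matrix ι ι ℂ)) 1 1 = fun _ => 1 := Function.update_eq_self _ _
    rw [e1, add_comm]
  · rw [Function.update_of_ne hh]
    have e1 : ∀ (N : G → Matrix ι ι ℂ), N h = 1 → Function.update N h 1 = N := by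
      intro N hN
      rw [← hN]
      exact Function.update_eq_self _ _
    rw [e1 _ (Function.update_of_ne hh _ _), e1 _ rfl]

end swap

variable {K G ι : Type} [Field K] [CharZero K] [Group G] [Fintype G] [DecidableEq G] [MulSemiringAction G K]
  [Fintype ι] [DecidableEq ι]

variable {φ : K →+* ℝ} {θ θ' α : K} {c : ι → ℚ}

/-- the rational matrix on `V ⊗ V` -/
theorem exists_BB (F : Fdat K G φ θ θ' α) : ∃ B : Matrix ((G → ι) × (G → ι)) ((G → ι) × (G → ι)) ℚ,
    toC B = ((LiK θ').map (chi φ) ⊗ₖ (LiK θ').map (chi φ)) * TT G ι ℂ * ((LK θ).map (chi φ) ⊗ₖ (LK θ).map (chi φ)) := by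
  obtain ⟨B, hB⟩ := descend F (X := (G → ι) × (G → ι)) (fun g => sg2 g) (L := LK θ ⊗ₖ LK θ) (Li := LiK θ' ⊗ₖ LiK θ')
    (N := TT G ι K)
    (fun g x y => by
      rw [Matrix.kroneckerMap_apply, smul_mul', smul_LK, smul_LK]
      rfl)
    (fun g x y => by
      rw [Matrix.kroneckerMap_apply, smul_mul', smul_LiK, smul_LiK]
      rfl)
    (fun g x y => smul_TT g x y)
  refine ⟨B, ?_⟩
  have hk : ∀ A A' : Matrix (G → ι) (G → ι) K, (A ⊗ₖ A').map (chi φ) = A.map (chi φ) ⊗ₖ A'.map (chi φ) := by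
    intro A A'
    ext x y
    simp [Matrix.kroneckerMap_apply]
  rw [← map_rat φ, hB, Matrix.map_mul, Matrix.map_mul, hk, hk, TT_map]

/-- the scaled operator -/
noncomputable def scM (φ : K →+* ℝ) (α : K) (c : ι → ℚ) (h' : Matrix ι ι ℂ) : Matrix ι ι ℂ :=
  Matrix.of fun x y => (rho φ α c x : ℂ)⁻¹ * h' x y * (rho φ α c y : ℂ)

/-- the operator of the norm in the coordinates of the field -/
theorem NJ_eq (_F : Fdat K G φ θ θ' α) (h' : Matrix ι ι ℂ) : NJ (LJ G φ θ α c) (LiJ G φ θ' α c) h' =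
    (LiK θ').map (chi φ) * ten (Function.update (fun _ : G => (1 : Matrix ι ι ℂ)) 1 (scM φ α c h')) *
      (LK θ).map (chi φ) := by
  ext i j
  rw [NJ, Matrix.mul_apply, Matrix.mul_apply]
  symm
  refine Fintype.sum_equiv (ee G ι) _ _ fun b => ?_
  rw [Matrix.mul_apply, Matrix.mul_apply, Finset.sum_mul, Finset.sum_mul]
  refine Fintype.sum_equiv (ee G ι) _ _ fun a => ?_
  rw [LJ, LiJ, Equiv.symm_apply_apply, Equiv.symm_apply_apply, Matrix.map_apply, Matrix.map_apply, ten,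
    Fintype.prod_eq_mul_prod_subtype_ne _ (1 : G), Function.update_self, Matrix.kroneckerMap_apply, ee_fst, ee_fst]
  have e1 : ∏ h : {h : G // h ≠ 1}, Function.update (fun _ : G => (1 : Matrix ι ι ℂ)) 1 (scM φ α c h') h.1 (a h) (b h) =
      (1 : Matrix ({h : G // h ≠ 1} → ι) ({h : G // h ≠ 1} → ι) ℂ) (ee G ι a).2 (ee G ι b).2 := by
    rw [Matrix.one_apply]
    by_cases hab : (ee G ι a).2 = (ee G ι b).2
    · rw [if_pos hab]
      refine Finset.prod_eq_one fun h _ => ?_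
      have h2 : a h = b h := congrFun hab h
      rw [Function.update_of_ne h.2, h2, Matrix.one_apply_eq]
    · rw [if_neg hab]
      obtain ⟨h, hh⟩ := Function.ne_iff.1 hab
      have h2 : a h ≠ b h := hh
      refine Finset.prod_eq_zero (Finset.mem_univ h) ?_
      rw [Function.update_of_ne h.2, Matrix.one_apply_ne h2]
  rw [e1, scM, Matrix.of_apply]
  ring

/-- **The Mumford-Tate group is not the full group.** -/
theorem notMTK (F : Fdat K G φ θ θ' α) (hG : 2 ≤ Fintype.card G) {Q : Matrix (G → ι) (G → ι) ℚ}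
    (hQ : Q.map (algebraMap ℚ K) = QK c θ α) {i0 i1 : ι} (h0 : c i0 = 1) (h1 : c i1 = 1) (h : i0 ≠ i1) {S : Finset ℤ}
    {P : ℤ → Matrix (G → ι) (G → ι) ℂ} (hI : Idm S P) {h' : Matrix ι ι ℂ}
    (hP : ∑ q ∈ S, (q : ℂ) • P q = NJ (LJ G φ θ α c) (LiJ G φ θ' α c) h') :
    ∃ g : GL (G → ι) ℂ, IsGQ 2 Q g ∧ g ∉ MT S P := by
  obtain ⟨c0, hc0⟩ : ∃ c0 : G → ι, c0 = fun _ => i0 := ⟨_, rfl⟩
  obtain ⟨c1, hc1⟩ : ∃ c1 : G → ι, c1 = fun _ => i1 := ⟨_, rfl⟩
  have hc : c0 ≠ c1 := by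
    intro hh
    rw [hc0, hc1] at hh
    exact h (congrFun hh 1)
  obtain ⟨LC, hLC⟩ : ∃ LC : Matrix (G → ι) (G → ι) ℂ, LC = (LK θ).map (chi φ) := ⟨_, rfl⟩
  obtain ⟨LiC, hLiC⟩ : ∃ LiC : Matrix (G → ι) (G → ι) ℂ, LiC = (LiK θ').map (chi φ) := ⟨_, rfl⟩
  have hLL : LiC * LC = 1 := by
    rw [hLiC, hLC, ← Matrix.map_mul, LiK_mul_LK F, Matrix.map_one _ (map_zero _) (map_one _)]
  have hLL' : LC * LiC = 1 := mul_eq_one_comm.1 hLL
  -- the rotation commutes with the matrix of the descent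
  have hcs : ∀ k : Fin 2, ∀ g : G, sg g (![c0, c1] k) = ![c0, c1] k := by
    intro k g
    fin_cases k
    · show sg g c0 = c0
      rw [hc0]
      exact sg_const g i0
    · show sg g c1 = c1
      rw [hc1]
      exact sg_const g i1
  have rL : rot c0 c1 * LC = LC * rot c0 c1 := by
    refine rot_comm (t := ∑ g : G, chi φ (g • θ)) ?_ ?_
    · ext a k
      rw [Matrix.mul_apply, Finset.sum_eq_single (![c0, c1] k)]
      · rw [U2, if_pos rfl, mul_one, Matrix.smul_apply, U2, hLC, Matrix.map_apply, LK]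
        by_cases hak : a = ![c0, c1] k
        · rw [if_pos hak, smul_eq_mul, mul_one, map_sum]
          refine Finset.sum_congr rfl fun g _ => ?_
          rw [hcs, if_pos hak.symm]
        · rw [if_neg hak, smul_zero, map_sum]
          refine Finset.sum_eq_zero fun g _ => ?_
          rw [hcs, if_neg (Ne.symm hak), map_zero]
      · intro b _ hb
        rw [U2, if_neg hb, mul_zero]
      · intro hh
        exact absurd (Finset.mem_univ _) hh
    · ext k a
      rw [Matrix.mul_apply, Finset.sum_eq_single (![c0, c1] k)]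
      · rw [Matrix.transpose_apply, U2, if_pos rfl, one_mul, Matrix.smul_apply, Matrix.transpose_apply, U2, hLC,
          Matrix.map_apply, LK]
        by_cases hak : a = ![c0, c1] k
        · rw [if_pos hak, smul_eq_mul, mul_one, map_sum]
          refine Finset.sum_congr rfl fun g _ => ?_
          rw [hak, hcs, if_pos rfl]
        · rw [if_neg hak, smul_zero, map_sum]
          refine Finset.sum_eq_zero fun g _ => ?_
          rw [if_neg, map_zero]
          intro hh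
          apply hak
          rw [← sg_inv' g a, hh, hcs]
      · intro b _ hb
        rw [Matrix.transpose_apply, U2, if_neg hb, zero_mul]
      · intro hh
        exact absurd (Finset.mem_univ _) hh
  have rLi : rot c0 c1 * LiC = LiC * rot c0 c1 := by
    calc rot c0 c1 * LiC = LiC * LC * (rot c0 c1 * LiC) := by rw [hLL, one_mul]
      _ = LiC * (LC * rot c0 c1) * LiC := by simp only [mul_assoc]
      _ = LiC * (rot c0 c1 * LC) * LiC := by rw [rL]
      _ = LiC * rot c0 c1 * (LC * LiC) := by simp only [mul_assoc]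
      _ = LiC * rot c0 c1 := by rw [hLL', mul_one]
  -- the form
  obtain ⟨DC, hDC⟩ : ∃ DC : Matrix (G → ι) (G → ι) ℂ, DC = Matrix.diagonal fun i => chi φ (dK c α i) := ⟨_, rfl⟩
  have hQC : toC Q = LCᵀ * DC * LC := by
    rw [← map_rat φ, hQ, QK, Matrix.map_mul, Matrix.map_mul, hLC, hDC, Matrix.diagonal_map (map_zero _)]
    rfl
  have hd : ∀ k : Fin 2, dK c α (![c0, c1] k) = ∏ g : G, g • α := by
    intro k
    fin_cases k
    · show dK c α c0 = _
      rw [dK]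
      refine Finset.prod_congr rfl fun g _ => ?_
      rw [hc0, aK, if_pos h0]
    · show dK c α c1 = _
      rw [dK]
      refine Finset.prod_congr rfl fun g _ => ?_
      rw [hc1, aK, if_pos h1]
  have rD : rot c0 c1 * DC = DC * rot c0 c1 := by
    refine rot_comm (t := chi φ (∏ g : G, g • α)) ?_ ?_
    · ext a k
      rw [hDC, Matrix.diagonal_mul, Matrix.smul_apply, smul_eq_mul]
      by_cases hak : a = ![c0, c1] k
      · rw [hak, hd]
      · rw [U2, if_neg hak, mul_zero, mul_zero]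
    · ext k a
      rw [hDC, Matrix.mul_diagonal, Matrix.smul_apply, smul_eq_mul, Matrix.transpose_apply]
      by_cases hak : a = ![c0, c1] k
      · rw [hak, hd, mul_comm]
      · rw [U2, if_neg hak, mul_zero, zero_mul]
  have hiso : (rot c0 c1)ᵀ * toC Q * rot c0 c1 = toC Q := by
    have e1 : (rot c0 c1)ᵀ * LCᵀ = LCᵀ * (rot c0 c1)ᵀ := by
      rw [← Matrix.transpose_mul, ← Matrix.transpose_mul, rL]
    calc (rot c0 c1)ᵀ * toC Q * rot c0 c1
        = ((rot c0 c1)ᵀ * LCᵀ) * DC * (LC * rot c0 c1) := by rw [hQC]; simp only [mul_assoc]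
      _ = LCᵀ * ((rot c0 c1)ᵀ * (DC * rot c0 c1)) * LC := by rw [e1, ← rL]; simp only [mul_assoc]
      _ = LCᵀ * (((rot c0 c1)ᵀ * rot c0 c1) * DC) * LC := by rw [← rD]; simp only [mul_assoc]
      _ = toC Q := by rw [rot_tr_mul hc, one_mul, hQC]
  refine ⟨rotG hc, ⟨1, fun _ => rfl, ?_, fun _ => ?_⟩, fun hg => ?_⟩
  · change (rot c0 c1)ᵀ * toC Q * rot c0 c1 = _
    rw [hiso, one_pow, one_smul]
  · change (rot c0 c1).det = _
    rw [rot_det hc, one_pow]
  · obtain ⟨B, hB⟩ := exists_BB (ι := ι) F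
    rw [← hLC, ← hLiC] at hB
    obtain ⟨X1, hX1⟩ : ∃ X1, X1 = ten (Function.update (fun _ : G => (1 : Matrix ι ι ℂ)) 1 (scM φ α c h')) := ⟨_, rfl⟩
    have hx : ∑ q ∈ S, (q : ℂ) • P q = LiC * X1 * LC := by
      rw [hP, NJ_eq F, hX1, hLC, hLiC]
    have hTT : TT G ι ℂ * (X1 ⊗ₖ (1 : Matrix (G → ι) (G → ι) ℂ) + (1 : Matrix (G → ι) (G → ι) ℂ) ⊗ₖ X1) =
        (X1 ⊗ₖ (1 : Matrix (G → ι) (G → ι) ℂ) + (1 : Matrix (G → ι) (G → ι) ℂ) ⊗ₖ X1) * TT G ι ℂ := by
      rw [hX1]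
      exact TT_comm _
    obtain ⟨W, hW⟩ : ∃ W, W = X1 ⊗ₖ (1 : Matrix (G → ι) (G → ι) ℂ) + (1 : Matrix (G → ι) (G → ι) ℂ) ⊗ₖ X1 := ⟨_, rfl⟩
    rw [← hW] at hTT
    have k1 : (LiC ⊗ₖ LiC) * (LC ⊗ₖ LC) = 1 := by
      rw [← Matrix.mul_kronecker_mul, hLL, Matrix.one_kronecker_one]
    have k2 : (LC ⊗ₖ LC) * (LiC ⊗ₖ LiC) = 1 := by
      rw [← Matrix.mul_kronecker_mul, hLL', Matrix.one_kronecker_one]
    have hH : (∑ q ∈ S, (q : ℂ) • P q) ⊗ₖ (1 : Matrix (G → ι) (G → ι) ℂ) +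
        (1 : Matrix (G → ι) (G → ι) ℂ) ⊗ₖ (∑ q ∈ S, (q : ℂ) • P q) = (LiC ⊗ₖ LiC) * W * (LC ⊗ₖ LC) := by
      rw [hW, mul_add, add_mul, ← Matrix.mul_kronecker_mul, ← Matrix.mul_kronecker_mul, ← Matrix.mul_kronecker_mul,
        ← Matrix.mul_kronecker_mul, mul_one, hLL, hx]
    have hcm := mt_comm_kron hI (B := B) (by
      rw [hB, hH]
      calc (LiC ⊗ₖ LiC) * W * (LC ⊗ₖ LC) * ((LiC ⊗ₖ LiC) * TT G ι ℂ * (LC ⊗ₖ LC))
          = (LiC ⊗ₖ LiC) * (W * ((LC ⊗ₖ LC) * (LiC ⊗ₖ LiC)) * TT G ι ℂ) * (LC ⊗ₖ LC) := by simp only [mul_assoc]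
        _ = (LiC ⊗ₖ LiC) * (TT G ι ℂ * ((LC ⊗ₖ LC) * (LiC ⊗ₖ LiC)) * W) * (LC ⊗ₖ LC) := by
            rw [k2, mul_one, mul_one, hTT]
        _ = _ := by simp only [mul_assoc]) hg
    change toC B * (rot c0 c1 ⊗ₖ rot c0 c1) = (rot c0 c1 ⊗ₖ rot c0 c1) * toC B at hcm
    rw [hB] at hcm
    have d1 : (LC ⊗ₖ LC) * (rot c0 c1 ⊗ₖ rot c0 c1) = (rot c0 c1 ⊗ₖ rot c0 c1) * (LC ⊗ₖ LC) := by
      rw [← Matrix.mul_kronecker_mul, ← Matrix.mul_kronecker_mul, rL]
    have d2 : (rot c0 c1 ⊗ₖ rot c0 c1) * (LiC ⊗ₖ LiC) = (LiC ⊗ₖ LiC) * (rot c0 c1 ⊗ₖ rot c0 c1) := by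
      rw [← Matrix.mul_kronecker_mul, ← Matrix.mul_kronecker_mul, rLi]
    have hE : TT G ι ℂ * (rot c0 c1 ⊗ₖ rot c0 c1) = (rot c0 c1 ⊗ₖ rot c0 c1) * TT G ι ℂ := by
      calc TT G ι ℂ * (rot c0 c1 ⊗ₖ rot c0 c1)
          = ((LC ⊗ₖ LC) * (LiC ⊗ₖ LiC)) * TT G ι ℂ * (rot c0 c1 ⊗ₖ rot c0 c1) * ((LC ⊗ₖ LC) * (LiC ⊗ₖ LiC)) := by
            rw [k2, one_mul, mul_one]
        _ = (LC ⊗ₖ LC) * ((LiC ⊗ₖ LiC) * TT G ι ℂ * ((rot c0 c1 ⊗ₖ rot c0 c1) * (LC ⊗ₖ LC))) * (LiC ⊗ₖ LiC) := by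
            simp only [mul_assoc]
        _ = (LC ⊗ₖ LC) * ((LiC ⊗ₖ LiC) * TT G ι ℂ * (LC ⊗ₖ LC) * (rot c0 c1 ⊗ₖ rot c0 c1)) * (LiC ⊗ₖ LiC) := by
            rw [← d1]
            simp only [mul_assoc]
        _ = (LC ⊗ₖ LC) * ((rot c0 c1 ⊗ₖ rot c0 c1) * ((LiC ⊗ₖ LiC) * TT G ι ℂ * (LC ⊗ₖ LC))) * (LiC ⊗ₖ LiC) := by
            rw [hcm]
        _ = (LC ⊗ₖ LC) * ((rot c0 c1 ⊗ₖ rot c0 c1) * (LiC ⊗ₖ LiC)) * TT G ι ℂ * ((LC ⊗ₖ LC) * (LiC ⊗ₖ LiC)) := by
            simp only [mul_assoc]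
        _ = ((LC ⊗ₖ LC) * (LiC ⊗ₖ LiC)) * (rot c0 c1 ⊗ₖ rot c0 c1) * TT G ι ℂ * ((LC ⊗ₖ LC) * (LiC ⊗ₖ LiC)) := by
            rw [d2]
            simp only [mul_assoc]
        _ = _ := by rw [k2, one_mul, mul_one]
    -- compare one entry
    obtain ⟨h2, hh2⟩ : ∃ g : G, g ≠ 1 := Fintype.exists_ne_of_one_lt_card (by omega) 1
    obtain ⟨a, ha⟩ : ∃ a : G → ι, a = Function.update c0 1 i1 := ⟨_, rfl⟩
    obtain ⟨b, hb⟩ : ∃ b : G → ι, b = Function.update c1 1 i0 := ⟨_, rfl⟩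
    have hv := congrFun (congrFun hE (a, b)) (c0, c0)
    rw [TT, Finset.sum_mul, Finset.mul_sum, Matrix.sum_apply, Matrix.sum_apply] at hv
    have v1 : ∀ g : G, (pw ℂ (tw g) * (rot c0 c1 ⊗ₖ rot c0 c1) :
        Matrix ((G → ι) × (G → ι)) ((G → ι) × (G → ι)) ℂ) (a, b) (c0, c0) =
        ((rcol c0 c1 (tw g (a, b)).1 * rcol c0 c1 (tw g (a, b)).2 : ℝ) : ℂ) := by
      intro g
      rw [pw_mul, Matrix.kroneckerMap_apply, rot_col hc, rot_col hc]
      push_cast
      rfl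
    have ha0 : rcol c0 c1 a = 0 := by
      rw [rcol, if_neg, if_neg]
      · intro hh
        have := congrFun hh h2
        rw [ha, hc1, hc0, Function.update_of_ne hh2] at this
        exact h this
      · intro hh
        have := congrFun hh 1
        rw [ha, hc0, Function.update_self] at this
        exact h this.symm
    have v2 : ∀ g : G, ((rot c0 c1 ⊗ₖ rot c0 c1) * pw ℂ (tw g) :
        Matrix ((G → ι) × (G → ι)) ((G → ι) × (G → ι)) ℂ) (a, b) (c0, c0) = 0 := by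
      intro g
      rw [mul_pw (tw_inv g)]
      have e1 : tw g (c0, c0) = (c0, c0) := by
        simp only [tw, Function.update_eq_self]
      rw [e1, Matrix.kroneckerMap_apply, rot_col hc, ha0, Complex.ofReal_zero, zero_mul]
    rw [Finset.sum_congr rfl fun g _ => v1 g, Finset.sum_congr rfl fun g _ => v2 g, Finset.sum_const_zero,
      ← Complex.ofReal_sum, Complex.ofReal_eq_zero] at hv
    have v3 := (Finset.sum_eq_zero_iff_of_nonneg fun g _ => mul_nonneg (rcol_nonneg _) (rcol_nonneg _)).1 hv 1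
      (Finset.mem_univ _)
    have t1 : (tw 1 (a, b)).1 = c0 := by
      show Function.update a 1 (b 1) = c0
      rw [hb, Function.update_self, ha, Function.update_idem]
      rw [show i0 = c0 1 by rw [hc0]]
      exact Function.update_eq_self _ _
    have t2 : (tw 1 (a, b)).2 = c1 := by
      show Function.update b 1 (a 1) = c1
      rw [ha, Function.update_self, hb, Function.update_idem]
      rw [show i1 = c1 1 by rw [hc1]]
      exact Function.update_eq_self _ _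
    rw [t1, t2, rcol, rcol, if_pos rfl, if_neg hc.symm, if_pos rfl] at v3
    norm_num at v3

end NK98

end MH
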