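import Pool.Agent.Helper98.NK.Mat

/-!
Norms of degree `k` of Hodge structures of weight two (MP_b8862a_ag): the real coordinates, the endomorphisms.
-/

set_option linter.unusedSectionVars false

open Matrix
open scoped Kronecker

namespace MH

namespace NK98

open NM94

variable {K G ι : Type} [Field K] [CharZero K] [Group G] [Fintype G] [DecidableEq G] [MulSemiringAction G K]
  [Fintype ι] [DecidableEq ι]

/-- the embedding of the field -/
noncomputable def chi (φ : K →+* ℝ) : K →+* ℂ := (algebraMap ℝ ℂ).comp φ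

theorem chi_apply (φ : K →+* ℝ) (x : K) : chi φ x = (φ x : ℂ) := rfl

theorem chi_conj (φ : K →+* ℝ) (x : K) : starRingEnd ℂ (chi φ x) = chi φ x := Complex.conj_ofReal _

theorem map_rat (φ : K →+* ℝ) {X : Type} (B : Matrix X X ℚ) : (B.map (algebraMap ℚ K)).map (chi φ) = toC B := by
  ext x y
  simp [toC, Matrix.map_apply]

/-- the scaling -/
noncomputable def rho (φ : K →+* ℝ) (α : K) (c : ι → ℚ) (x : ι) : ℝ :=
  if c x = 1 then Real.sqrt (-φ α / Real.sqrt 2) else 1

variable {φ : K →+* ℝ} {θ θ' α : K} {c : ι → ℚ}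

theorem rho_pos (F : Fdat K G φ θ θ' α) (x : ι) : 0 < rho φ α c x := by
  rw [rho]
  split_ifs
  · have := F.neg
    exact Real.sqrt_pos.2 (div_pos (by linarith) (Real.sqrt_pos.2 (by norm_num)))
  · exact one_pos

theorem rho_sq (F : Fdat K G φ θ θ' α) (hc : ∀ i, c i = 0 ∨ c i = 1) (x : ι) :
    φ (aK c α x) = rho φ α c x ^ 2 * ar c x := by
  have h2 : Real.sqrt 2 ≠ 0 := (Real.sqrt_pos.2 (by norm_num)).ne'
  rcases hc x with h | h
  · rw [aK, rho, ar, h, if_neg (by norm_num), if_neg (by norm_num), map_one]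
    simp
  · have := F.neg
    rw [aK, rho, ar, h, if_pos rfl, if_pos rfl, Real.sq_sqrt (div_nonneg (by linarith) (Real.sqrt_nonneg _))]
    push_cast
    field_simp
    ring

/-- the splitting of the index set -/
def ee (G ι : Type) [Group G] [DecidableEq G] : (G → ι) ≃ ι × ({h : G // h ≠ 1} → ι) := Equiv.funSplitAt 1 ι

theorem ee_fst (i : G → ι) : (ee G ι i).1 = i 1 := rfl
theorem ee_snd (i : G → ι) (h : {h : G // h ≠ 1}) : (ee G ι i).2 h = i h := rfl

/-- the weights of the other factors -/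
noncomputable def wJ (φ : K →+* ℝ) (c : ι → ℚ) (α : K) (j : {h : G // h ≠ 1} → ι) : ℝ :=
  ∏ h : {h : G // h ≠ 1}, φ (h.1 • aK c α (j h))

theorem wJ_pos (F : Fdat K G φ θ θ' α) (j : {h : G // h ≠ 1} → ι) : 0 < wJ φ c α j := by
  refine Finset.prod_pos fun h _ => ?_
  rw [aK]
  split_ifs
  · exact F.pos h.1 h.2
  · rw [smul_one, map_one]
    exact one_pos

theorem chi_dK (F : Fdat K G φ θ θ' α) (hc : ∀ i, c i = 0 ∨ c i = 1) (i : G → ι) :
    chi φ (dK c α i) = (rho φ α c (i 1) : ℂ) * (av c (i 1) * (wJ φ c α (ee G ι i).2 : ℂ)) * (rho φ α c (i 1) : ℂ) := by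
  have h1 : φ (dK c α i) = rho φ α c (i 1) * (ar c (i 1) * wJ φ c α (ee G ι i).2) * rho φ α c (i 1) := by
    rw [dK, Fintype.prod_eq_mul_prod_subtype_ne _ (1 : G), one_smul, map_mul, rho_sq F hc, map_prod, wJ]
    have h2 : ∀ h : {h : G // h ≠ 1}, φ (h.1 • aK c α ((ee G ι i).2 h)) = φ (h.1 • aK c α (i h)) := fun h => rfl
    rw [Finset.prod_congr rfl fun h _ => h2 h]
    ring
  rw [chi_apply, h1, av_eq]
  push_cast
  ring

variable (G) in
/-- the real coordinates -/
noncomputable def LJ (φ : K →+* ℝ) (θ α : K) (c : ι → ℚ) : Matrix (ι × ({h : G // h ≠ 1} → ι)) (G → ι) ℂ :=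
  fun x j => (rho φ α c x.1 : ℂ) * chi φ (LK θ ((ee G ι).symm x) j)

variable (G) in
/-- the inverse matrix -/
noncomputable def LiJ (φ : K →+* ℝ) (θ' α : K) (c : ι → ℚ) : Matrix (G → ι) (ι × ({h : G // h ≠ 1} → ι)) ℂ :=
  fun j x => chi φ (LiK θ' j ((ee G ι).symm x)) * (rho φ α c x.1 : ℂ)⁻¹

theorem rho_ne (F : Fdat K G φ θ θ' α) (x : ι) : (rho φ α c x : ℂ) ≠ 0 := by
  exact_mod_cast (rho_pos F x).ne'

theorem ee_symm_one (x : ι × ({h : G // h ≠ 1} → ι)) : (ee G ι).symm x 1 = x.1 := by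
  have := congrArg Prod.fst ((ee G ι).apply_symm_apply x)
  exact this

/-- **The real coordinates.** -/
theorem fr (F : Fdat K G φ θ θ' α) (hc : ∀ i, c i = 0 ∨ c i = 1) {Q : Matrix (G → ι) (G → ι) ℚ}
    (hQ : Q.map (algebraMap ℚ K) = QK c θ α) :
    Fr c (wJ φ c α) Q (LJ G φ θ α c) (LiJ G φ θ' α c) := by
  refine ⟨?_, ?_, ?_, ?_, ?_, fun j => wJ_pos F j⟩
  · ext x y
    rw [Matrix.mul_apply]
    have h1 : ∀ j : G → ι, LJ G φ θ α c x j * LiJ G φ θ' α c j y = (rho φ α c x.1 : ℂ) *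
        chi φ (LK θ ((ee G ι).symm x) j * LiK θ' j ((ee G ι).symm y)) * (rho φ α c y.1 : ℂ)⁻¹ := by
      intro j
      rw [LJ, LiJ, map_mul]
      ring
    rw [Finset.sum_congr rfl fun j _ => h1 j, ← Finset.sum_mul, ← Finset.mul_sum, ← map_sum, ← Matrix.mul_apply,
      LK_mul_LiK F, Matrix.one_apply, Matrix.one_apply]
    by_cases hxy : x = y
    · subst hxy
      rw [if_pos rfl, if_pos rfl, map_one, mul_one, mul_inv_cancel₀ (rho_ne F _)]
    · rw [if_neg hxy, if_neg (fun hh => hxy ((ee G ι).symm.injective hh)), map_zero, mul_zero, zero_mul]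
  · ext i j
    rw [Matrix.mul_apply]
    have h1 : ∀ x : ι × ({h : G // h ≠ 1} → ι), LiJ G φ θ' α c i x * LJ G φ θ α c x j =
        chi φ (LiK θ' i ((ee G ι).symm x) * LK θ ((ee G ι).symm x) j) := by
      intro x
      rw [LJ, LiJ, map_mul]
      have := rho_ne (c := c) F x.1
      field_simp
    rw [Finset.sum_congr rfl fun x _ => h1 x,
      (ee G ι).symm.sum_comp (fun a => chi φ (LiK θ' i a * LK θ a j)), ← map_sum, ← Matrix.mul_apply,
      LiK_mul_LK F, Matrix.one_apply, Matrix.one_apply]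
    split_ifs
    · exact map_one _
    · exact map_zero _
  · ext x j
    rw [Matrix.map_apply, LJ, map_mul, chi_conj, Complex.conj_ofReal]
  · ext j x
    rw [Matrix.map_apply, LiJ, map_mul, chi_conj, map_inv₀, Complex.conj_ofReal]
  · rw [← map_rat φ, hQ]
    ext i j
    rw [Matrix.map_apply, QK, Matrix.mul_apply, map_sum, Matrix.mul_apply]
    refine Fintype.sum_equiv (ee G ι) _ _ fun a => ?_
    rw [Matrix.diagonal_kronecker_diagonal, Matrix.mul_diagonal, Matrix.mul_diagonal, Matrix.transpose_apply,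
      Matrix.transpose_apply, LJ, LJ, Equiv.symm_apply_apply, map_mul, map_mul, chi_dK F hc, ee_fst]
    ring

/-- **A rational matrix that commutes with an open part of the family is a scalar.** -/
theorem hgenK (F : Fdat K G φ θ θ' α) {p : ι → ι} {s : ι → ℂ} (h : Par c p s) {Q : Matrix (G → ι) (G → ι) ℚ}
    (hQ : Q.map (algebraMap ℚ K) = QK c θ α) {j0 j1 m0 : ι} (hj0 : c j0 = 1) (hj1 : c j1 = 1) (hj : j0 ≠ j1)
    (hm0 : c m0 = 0) (U : Set (GT c)) (hU : IsOpen U) (hne : U.Nonempty) (A : Matrix (G → ι) (G → ι) ℚ)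
    (hA : ∀ t ∈ U, ∀ q, toC A * PH24 (NJ (LJ G φ θ α c) (LiJ G φ θ' α c) (Hf c p s (t : Matrix ι ι ℝ))) q =
      PH24 (NJ (LJ G φ θ α c) (LiJ G φ θ' α c) (Hf c p s (t : Matrix ι ι ℝ))) q * toC A) :
    ∃ z : ℚ, A = z • (1 : Matrix (G → ι) (G → ι) ℚ) := by
  obtain ⟨la, hla⟩ := (fr F h.c01 hQ).blocks h hj0 hj1 hj hm0 U hU hne (toC A) hA
  -- the matrix over the field
  have hE : ∀ a b : G → ι, chi φ (EK θ θ' A a b) = if a 1 = b 1 then la (ee G ι a).2 (ee G ι b).2 else 0 := by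
    intro a b
    have h1 := hla (ee G ι a).1 (ee G ι a).2 (ee G ι b).1 (ee G ι b).2
    have h2 : (LJ G φ θ α c * toC A * LiJ G φ θ' α c) (ee G ι a) (ee G ι b) =
        (rho φ α c (a 1) : ℂ) * chi φ (EK θ θ' A a b) * (rho φ α c (b 1) : ℂ)⁻¹ := by
      rw [← map_rat φ]
      simp only [Matrix.mul_apply, EK, map_sum, Finset.sum_mul, Finset.mul_sum]
      refine Finset.sum_congr rfl fun x _ => ?_
      refine Finset.sum_congr rfl fun y _ => ?_
      rw [LJ, LiJ, Equiv.symm_apply_apply, Equiv.symm_apply_apply, map_mul, map_mul, ee_fst, ee_fst,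
        Matrix.map_apply]
      ring
    rw [Prod.mk.eta, Prod.mk.eta, h2, ee_fst, ee_fst] at h1
    have r1 := rho_ne (c := c) F (a 1)
    have r2 := rho_ne (c := c) F (b 1)
    by_cases hab : a 1 = b 1
    · rw [if_pos hab] at h1 ⊢
      rw [hab, mul_comm (rho φ α c (b 1) : ℂ), mul_assoc, mul_inv_cancel₀ r2, mul_one] at h1
      exact h1
    · rw [if_neg hab] at h1 ⊢
      rcases mul_eq_zero.1 h1 with h3 | h3
      · exact (mul_eq_zero.1 h3).resolve_left r1
      · exact absurd h3 (inv_ne_zero r2)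
  have hinj : Function.Injective (chi φ) := (chi φ).injective
  refine scalar_of_slot F A j0 (fun a b hab => ?_) (fun a b x hab => ?_)
  · apply hinj
    rw [hE, if_neg hab, map_zero]
  · apply hinj
    rw [hE, hE, if_pos hab, if_pos (by rw [Function.update_self, Function.update_self])]
    have h2 : ∀ (i : G → ι), (ee G ι (Function.update i 1 x)).2 = (ee G ι i).2 := by
      intro i
      funext h
      rw [ee_snd, ee_snd, Function.update_of_ne h.2]
    rw [h2, h2]

end NK98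

end MH
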